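import Pool.Agent.Helper12.HZ.S5Base

/-!
# HZ: module S5B0
-/

set_option autoImplicit false

open MulAction Pointwise

namespace Pool.Agent.Helper93.HZ

variable {G : Type} [Group G]

/-- three different orbits -/
theorem s5b0_oc_ge3 {α : Type} [MulAction G α] {S : Set α} (hS : FinOrb G S) {s1 s2 s3 : α}
    (h1 : s1 ∈ S) (h2 : s2 ∈ S) (h3 : s3 ∈ S) (h12 : ∀ g : G, s2 ≠ g • s1)
    (h13 : ∀ g : G, s3 ≠ g • s1) (h23 : ∀ g : G, s3 ≠ g • s2) : 3 ≤ oc G S := by
  unfold oc
  have hsub : ({orbit G s1, orbit G s2, orbit G s3} : Set (Set α)) ⊆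
      (fun x : α => orbit G x) '' S := by
    rintro o (rfl | rfl | rfl)
    · exact ⟨s1, h1, rfl⟩
    · exact ⟨s2, h2, rfl⟩
    · exact ⟨s3, h3, rfl⟩
  have hle := Set.ncard_le_ncard hsub hS
  have hne : ∀ a b : α, (∀ g : G, b ≠ g • a) → orbit G a ≠ orbit G b := by
    intro a b hab h
    have h4 : b ∈ orbit G a := by rw [h]; exact mem_orbit_self b
    obtain ⟨g, hg⟩ := h4
    exact hab g hg.symm
  have h4 : ({orbit G s1, orbit G s2, orbit G s3} : Set (Set α)).ncard = 3 := by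
    rw [Set.ncard_eq_three]
    exact ⟨_, _, _, hne _ _ h12, hne _ _ h13, hne _ _ h23, rfl⟩
  omega

theorem s5b0_three {α : Type} {A : Set α} (h : ¬ (A.Finite ∧ A.ncard ≤ 2)) :
    ∃ a b c, a ∈ A ∧ b ∈ A ∧ c ∈ A ∧ a ≠ b ∧ a ≠ c ∧ b ≠ c := by
  by_cases hf : A.Finite
  · have h2 : 2 < A.ncard := by
      by_contra hcon
      exact h ⟨hf, by omega⟩
    exact (Set.two_lt_ncard_iff hf).mp h2
  · obtain ⟨B, hBA, hB⟩ := Set.Infinite.exists_subset_ncard_eq hf 3
    have hBf : B.Finite := Set.finite_of_ncard_ne_zero (by omega)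
    obtain ⟨a, b, c, ha, hb, hc, h1, h2, h3⟩ := (Set.two_lt_ncard_iff hBf).mp (by omega)
    exact ⟨a, b, c, hBA ha, hBA hb, hBA hc, h1, h2, h3⟩

theorem st_S5B0 (hCON : ST_CON) : ST_S5B0 := by
  intro G _ D K v L _ hNM q g hq hadj hgv hg2
  classical
  by_cases hA : {r | L.R.tri q (g • q) r}.Finite ∧ {r | L.R.tri q (g • q) r}.ncard ≤ 2
  · exact Or.inl hA
  right
  have hinj : ∀ a b : G, a • q = b • q → a = b := fun a b h => L.s5_inj hq h
  have hg1 : g ≠ 1 := by
    rintro rfl; exact hg2 (by simp)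
  obtain ⟨K', π, hsurj, hπs, hπ, hπQ, htri, hstab, hrr⟩ := s5_con hCON D L hq hadj
  have hπq : π q = π (g • q) := by
    have := hπQ 0 1
    simpa using this
  set S1 : Set (Set L.R.V) := {t | ∃ x y z, L.R.tri x y z ∧ π x = π y ∧ t = {x, y, z}} with hS1
  have hS1fin : FinOrb G S1 := by
    refine s5_finorb_mono L.R.finT ?_
    rintro s ⟨x, y, z, h, -, rfl⟩
    exact ⟨x, y, z, h, rfl⟩
  have h3 := L.delta1
  have h3' := L.delta2
  have h4 : rr K ≤ rr K' := hNM.1 K'
  have hmem : ∀ r, L.R.tri q (g • q) r → ({q, g • q, r} : Set L.R.V) ∈ S1 := fun r hr =>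
    ⟨_, _, _, hr, hπq, rfl⟩
  -- two different triangles at the cell in one orbit
  have hkey : ∀ r r', L.R.tri q (g • q) r → L.R.tri q (g • q) r' → r ≠ r' →
      ∀ k : G, ({q, g • q, r'} : Set L.R.V) = k • ({q, g • q, r} : Set L.R.V) →
      (r = g⁻¹ • q ∧ r' = (g * g) • q) ∨ (r = (g * g) • q ∧ r' = g⁻¹ • q) := by
    intro r r' hr hr' hne k hk
    rw [s5_smul_triple] at hk
    have m1 : q ∈ ({k • q, k • g • q, k • r} : Set L.R.V) := by rw [← hk]; simp
    have m2 : g • q ∈ ({k • q, k • g • q, k • r} : Set L.R.V) := by rw [← hk]; simp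
    have m3 : r' ∈ ({k • q, k • g • q, k • r} : Set L.R.V) := by rw [← hk]; simp
    have r1' : r' ≠ q := (s5_tri_irr3 hr').symm
    have r2' : r' ≠ g • q := (s5_tri_irr2 hr').symm
    have r1 : r ≠ q := (s5_tri_irr3 hr).symm
    have r2 : r ≠ g • q := (s5_tri_irr2 hr).symm
    simp only [Set.mem_insert_iff, Set.mem_singleton_iff] at m1 m2 m3
    rcases m1 with h | h | h
    · exfalso
      have e : k = 1 := hinj _ _ (by rw [← h, one_smul])
      subst e
      rw [one_smul, one_smul, one_smul] at m3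
      rcases m3 with h5 | h5 | h5
      · exact r1' h5
      · exact r2' h5
      · exact hne h5.symm
    · rw [← mul_smul] at h
      have e : k = g⁻¹ := eq_inv_of_mul_eq_one_left (hinj _ _ (by rw [← h, one_smul]))
      subst e
      right
      rcases m2 with h5 | h5 | h5
      · exfalso
        have e := hinj _ _ h5
        apply hg2
        calc g * g = g * g⁻¹ := by rw [← e]
          _ = 1 := mul_inv_cancel g
      · exfalso
        rw [inv_smul_smul] at h5
        exact hg1 (hinj _ _ (by rw [h5, one_smul]))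
      · have e1 : r = (g * g) • q := by
          rw [mul_smul, h5, smul_inv_smul]
        refine ⟨e1, ?_⟩
        rcases m3 with h6 | h6 | h6
        · exact h6
        · rw [inv_smul_smul] at h6; exact absurd h6 r1'
        · rw [← h5] at h6; exact absurd h6 r2'
    · -- q = k r
      rcases m2 with h5 | h5 | h5
      · have e := hinj _ _ h5
        subst e
        left
        refine ⟨by rw [eq_inv_smul_iff]; exact h.symm, ?_⟩
        rcases m3 with h6 | h6 | h6
        · exact absurd h6 r2'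
        · rw [h6, mul_smul]
        · rw [← h] at h6; exact absurd h6 r1'
      · exfalso
        rw [← mul_smul] at h5
        have e := hinj _ _ h5
        have e2 : k = 1 := by
          have : k * g = 1 * g := by rw [one_mul]; exact e.symm
          exact mul_right_cancel this
        rw [e2, one_smul] at h
        exact r1 h.symm
      · exfalso
        rw [← h] at h5
        exact hg1 (hinj _ _ (by rw [h5, one_smul]))
  have ho2 : oc G S1 ≤ 2 := by omega
  -- among three triangles two are in one orbit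
  have hpig : ∀ a b c, L.R.tri q (g • q) a → L.R.tri q (g • q) b → L.R.tri q (g • q) c →
      a ≠ b → a ≠ c → b ≠ c →
      (∃ k : G, ({q, g • q, b} : Set L.R.V) = k • ({q, g • q, a} : Set L.R.V)) ∨
      (∃ k : G, ({q, g • q, c} : Set L.R.V) = k • ({q, g • q, a} : Set L.R.V)) ∨
      (∃ k : G, ({q, g • q, c} : Set L.R.V) = k • ({q, g • q, b} : Set L.R.V)) := by
    intro a b c ha hb hc _ _ _
    by_contra hcon
    push Not at hcon
    have := s5b0_oc_ge3 hS1fin (hmem a ha) (hmem b hb) (hmem c hc) hcon.1 hcon.2.1 hcon.2.2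
    omega
  obtain ⟨a, b, c, ha, hb, hc, hab, hac, hbc⟩ := s5b0_three hA
  have ha' : L.R.tri q (g • q) a := ha
  have hb' : L.R.tri q (g • q) b := hb
  have hc' : L.R.tri q (g • q) c := hc
  -- extract the special pair and a third triangle
  have hex : ∃ w, L.R.tri q (g • q) w ∧ L.R.tri q (g • q) (g⁻¹ • q) ∧
      L.R.tri q (g • q) ((g * g) • q) ∧ w ≠ g⁻¹ • q ∧ w ≠ (g * g) • q ∧
      g⁻¹ • q ≠ (g * g) • q := by
    rcases hpig a b c ha' hb' hc' hab hac hbc with ⟨k, hk⟩ | ⟨k, hk⟩ | ⟨k, hk⟩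
    · refine ⟨c, hc', ?_⟩
      rcases hkey a b ha' hb' hab k hk with ⟨rfl, rfl⟩ | ⟨rfl, rfl⟩
      · exact ⟨ha', hb', hac.symm, hbc.symm, hab⟩
      · exact ⟨hb', ha', hbc.symm, hac.symm, hab.symm⟩
    · refine ⟨b, hb', ?_⟩
      rcases hkey a c ha' hc' hac k hk with ⟨rfl, rfl⟩ | ⟨rfl, rfl⟩
      · exact ⟨ha', hc', hab.symm, hbc, hac⟩
      · exact ⟨hc', ha', hbc, hab.symm, hac.symm⟩
    · refine ⟨a, ha', ?_⟩
      rcases hkey b c hb' hc' hbc k hk with ⟨rfl, rfl⟩ | ⟨rfl, rfl⟩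
      · exact ⟨hb', hc', hab, hac, hbc⟩
      · exact ⟨hc', hb', hac, hab, hbc.symm⟩
  obtain ⟨w, hw, hm, ht0, hw1, hw2, hd⟩ := hex
  -- `T₀` and `T₂` are in different orbits
  have hT02 : ∀ k : G, ({q, g • q, w} : Set L.R.V) ≠ k • ({q, g • q, (g * g) • q} : Set L.R.V) := by
    intro k hk
    rcases hkey _ w ht0 hw (Ne.symm hw2) k hk with ⟨h5, -⟩ | ⟨-, h5⟩
    · exact hd h5.symm
    · exact hw1 h5
  refine ⟨w, ⟨hq, hadj, hgv, hg2, ?_, ht0, hw, hw1, hw2, ?_, ?_, ?_⟩⟩
  · intro h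
    apply hd
    rw [inv_eq_of_mul_eq_one_left h]
  · intro r hr
    by_contra hcon
    push Not at hcon
    obtain ⟨n1, n2, n3⟩ := hcon
    rcases hpig r w ((g * g) • q) hr hw ht0 n3 n2 hw2 with ⟨k, hk⟩ | ⟨k, hk⟩ | ⟨k, hk⟩
    · rcases hkey r w hr hw n3 k hk with ⟨h5, -⟩ | ⟨h5, -⟩
      · exact n1 h5
      · exact n2 h5
    · rcases hkey r _ hr ht0 n2 k hk with ⟨h5, -⟩ | ⟨h5, -⟩
      · exact n1 h5
      · exact n2 h5
    · rcases hkey w _ hw ht0 hw2 k hk with ⟨h5, -⟩ | ⟨h5, -⟩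
      · exact hw1 h5
      · exact hw2 h5
  · intro i j r hr
    have hmem' : ({g ^ i • q, g ^ j • q, r} : Set L.R.V) ∈ S1 := ⟨_, _, _, hr, hπQ i j, rfl⟩
    by_contra hcon
    push Not at hcon
    have := s5b0_oc_ge3 hS1fin (hmem _ ht0) (hmem w hw) hmem' hT02
      (fun m hm' => (hcon m).1 (by rw [hm', s5_smul_triple]))
      (fun m hm' => (hcon m).2 (by rw [hm', s5_smul_triple]))
    omega
  · have h6 := s5_oc_ge2 hS1fin (hmem _ ht0) (hmem w hw) hT02
    omega

end Pool.Agent.Helper93.HZ
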