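import Pool.Agent.Helper12.HZ.S5Base

/-!
# HZ: module S5B1
-/

set_option autoImplicit false

open MulAction Pointwise

namespace Pool.Agent.Helper93.HZ

variable {G : Type} [Group G]

/-- the NOTE of 8.1 -/
theorem s5b1_note {K : Cx G} {v : K.V} (L : LB K v) {q : L.R.V} {g : G} (hq : L.ρ q = v)
    (hadj : L.R.adj q (g • q)) (hgv : g • v ≠ v) (i : ℤ) : g ^ i ≠ L.z ∧ g ^ i ≠ L.z⁻¹ := by
  have h1 : K.adj v (g • v) := by
    rcases L.adj1 _ _ hadj with h | h
    · rw [L.ρ_smul, hq] at h; exact absurd h.symm hgv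
    · rwa [L.ρ_smul, hq] at h
  have hfr := L.lonely _ h1
  have hz : L.z ∈ stabilizer G v := by rw [L.zstab]; exact Subgroup.mem_zpowers _
  have hzv : L.z • v = v := mem_stabilizer_iff.mp hz
  have hz1 : L.z ≠ 1 := by
    intro h
    apply L.zinf
    rw [h]; exact IsOfFinOrder.one
  have hcomm : ∀ n : ℤ, L.z = g ^ n → False := by
    intro n hn
    apply hz1
    apply hfr _ hzv
    have h2 : L.z * g = g * L.z := by
      rw [hn]; exact ((Commute.refl g).zpow_left n).eq
    rw [← mul_smul, h2, mul_smul, hzv]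
  constructor
  · intro h
    exact hcomm i h.symm
  · intro h
    apply hcomm (-i)
    rw [zpow_neg, h, inv_inv]

/-- no edge of `R` joins two elements of `<g> q` over the same vertex -/
theorem s5b1_ne {K : Cx G} {v : K.V} (L : LB K v) {q : L.R.V} {g : G} (hq : L.ρ q = v)
    (hadj : L.R.adj q (g • q)) (hgv : g • v ≠ v) {i j : ℤ}
    (h : L.R.adj (g ^ i • q) (g ^ j • q)) : g ^ i • v ≠ g ^ j • v := by
  intro hv
  have h1 := L.R.smul_adj (g ^ i)⁻¹ _ _ h
  rw [inv_smul_smul, ← mul_smul] at h1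
  have h2 : (g ^ i)⁻¹ * g ^ j = g ^ (j - i) := by
    rw [← zpow_neg, ← zpow_add]; congr 1; ring
  rw [h2] at h1
  have h3 : L.ρ (g ^ (j - i) • q) = v := by
    rw [L.ρ_smul, hq, ← h2, mul_smul, ← hv, inv_smul_smul]
  have hn := s5b1_note L hq hadj hgv (j - i)
  rcases (L.ss _ _ hq h3).mp h1 with h4 | h4
  · exact hn.1 (L.s5_inj hq h4)
  · exact hn.2 (L.s5_inj hq h4)

theorem s5b1_K {K : Cx G} {v : K.V} (L : LB K v) {p q r : L.R.V} (h : L.R.tri p q r)
    (h1 : L.ρ p ≠ L.ρ q) (h2 : L.ρ q ≠ L.ρ r) (h3 : L.ρ p ≠ L.ρ r) :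
    K.tri (L.ρ p) (L.ρ q) (L.ρ r) := by
  rcases L.trik p q r h with h4 | ⟨h4, -⟩ | ⟨h4, -⟩ | ⟨h4, -⟩
  · exact h4
  · exact absurd h4 h1
  · exact absurd h4 h2
  · exact absurd h4 h3

theorem st_S5B1 (hFF : ST_FF) : ST_S5B1 := by
  intro G _ D K v L _ hNM q w g hB _ hun
  have hq := hB.hq
  have hinj : ∀ a b : G, a • q = b • q → a = b := fun a b h => L.s5_inj hq h
  have hρq : ∀ k : G, L.ρ (k • q) = k • v := fun k => by rw [L.ρ_smul, hq]
  have hz2 : g ^ (2 : ℤ) = g * g := by rw [zpow_two]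
  have hadj2 : L.R.adj q ((g * g) • q) := s5_tri_adj3 hB.t0
  have hvgv : v ≠ g • v := fun h => hB.gv h.symm
  have hv2 : v ≠ (g * g) • v := by
    have h1 := s5b1_ne L hq hB.hadj hB.gv (i := 0) (j := 2)
      (by rw [zpow_zero, one_smul, hz2]; exact hadj2)
    rwa [zpow_zero, one_smul, hz2] at h1
  have hgv2 : g • v ≠ (g * g) • v := by
    rw [mul_smul]; intro h; exact hvgv (smul_left_cancel g h)
  have hv1 : v ≠ g⁻¹ • v := by
    intro h
    apply hvgv
    rw [eq_inv_smul_iff] at h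
    exact h.symm
  have hgv1 : g • v ≠ g⁻¹ • v := by
    intro h
    apply hv2
    rw [eq_inv_smul_iff] at h
    rw [mul_smul]; exact h.symm
  -- K-triangles
  have hT0 : K.tri v (g • v) ((g * g) • v) := by
    have := s5b1_K L hB.t0 (by rw [hq, hρq]; exact hvgv) (by rw [hρq, hρq]; exact hgv2)
      (by rw [hq, hρq]; exact hv2)
    rwa [hq, hρq, hρq] at this
  have hT1R : L.R.tri q (g • q) (g⁻¹ • q) := by
    have := L.R.smul_tri g⁻¹ _ _ _ hB.t0
    rw [inv_smul_smul] at this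
    have h1 : g⁻¹ • (g * g) • q = g • q := by
      rw [← mul_smul, inv_mul_cancel_left]
    rw [h1] at this
    exact L.R.tri_rot _ _ _ this
  have hT1 : K.tri v (g • v) (g⁻¹ • v) := by
    have := s5b1_K L hT1R (by rw [hq, hρq]; exact hvgv) (by rw [hρq, hρq]; exact hgv1)
      (by rw [hq, hρq]; exact hv1)
    rwa [hq, hρq, hρq] at this
  have hne : (g * g) • v ≠ g⁻¹ • v := by
    intro h
    obtain ⟨p0, p1, p2, -, -, -, -, hu⟩ := L.lift _ _ _ hT0
    have h1 := hu _ _ _ hq (hρq g) (hρq (g * g)) hB.t0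
    have h2 := hu _ _ _ hq (hρq g) (by rw [hρq, h]) hT1R
    have h3 : (g * g) • q = g⁻¹ • q := h1.2.2.trans h2.2.2.symm
    apply hB.g3
    rw [hinj _ _ h3, inv_mul_cancel]
  -- unique third vertex at `{v, g² v}`
  have hun2 : ∀ y, K.tri v ((g * g) • v) y → y = g • v := by
    intro y hy
    obtain ⟨p0, p1, p2, e0, e1, e2, hR, -⟩ := L.lift _ _ _ hy
    obtain ⟨f0, f1⟩ := L.alpha q ((g * g) • q) hadj2 (by rw [hq, hρq]; exact hv2) (by
      intro r hr
      rw [hun r hr, hρq, hq, hρq]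
      exact ⟨fun h => hvgv h.symm, hgv2⟩) p0 p1 (L.R.tri_adj _ _ _ hR) (by rw [e0, hq])
      (by rw [e1, hρq])
    subst f0
    subst f1
    rw [← e2, hun _ hR, hρq]
  have hunh : ∀ (h : G) (y : K.V), K.tri (h • v) (h • (g * g) • v) y → y = h • g • v := by
    intro h y hy
    have h1 := K.smul_tri h⁻¹ _ _ _ hy
    rw [inv_smul_smul, inv_smul_smul] at h1
    rw [← hun2 _ h1, smul_inv_smul]
  have hunh' : ∀ (h : G) (y : K.V), K.tri (h • (g * g) • v) (h • v) y → y = h • g • v :=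
    fun h y hy => hunh h y (K.tri_swap _ _ _ hy)
  -- two third vertices contradict uniqueness
  have hset : ∀ (h : G) (a b y y' : K.V), ({h • v, h • (g * g) • v} : Set K.V) = {a, b} → a ≠ b →
      K.tri a b y → K.tri a b y' → y = y' := by
    intro h a b y y' hs hab hy hy'
    have ma : a ∈ ({h • v, h • (g * g) • v} : Set K.V) := by rw [hs]; simp
    have mb : b ∈ ({h • v, h • (g * g) • v} : Set K.V) := by rw [hs]; simp
    simp only [Set.mem_insert_iff, Set.mem_singleton_iff] at ma mb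
    rcases ma with rfl | rfl <;> rcases mb with rfl | rfl
    · exact absurd rfl hab
    · rw [hunh h y hy, hunh h y' hy']
    · rw [hunh' h y hy, hunh' h y' hy']
    · exact absurd rfl hab
  obtain ⟨K', -, -, -, -, -, hrr⟩ := hFF G D K v ((g * g) • v) (g • v) (s5_tri_swap23 hT0) hun2
    (by
      intro h hs
      exact hne (hset h _ _ _ _ hs hvgv hT0 hT1))
    (by
      intro h hs
      have h1 : K.tri (g • v) ((g * g) • v) (g • (g * g) • v) := by
        have := K.smul_tri g _ _ _ hT0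
        rwa [← mul_smul g g v] at this
      have h2 : K.tri (g • v) ((g * g) • v) v := by
        have := K.smul_tri g _ _ _ hT1
        rwa [← mul_smul g g v, smul_inv_smul] at this
      have h3 := hset h _ _ _ _ hs hgv2.symm (K.tri_swap _ _ _ h1) (K.tri_swap _ _ _ h2)
      apply hne
      rw [eq_inv_smul_iff]
      exact h3)
  have := hNM.1 K'
  omega

end Pool.Agent.Helper93.HZ
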