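import Pool.Agent.Helper12.HZ.S5B1

/-!
# HZ: module S5B2
-/

set_option autoImplicit false

open MulAction Pointwise

namespace Pool.Agent.Helper93.HZ

variable {G : Type} [Group G]

theorem st_S5B2 : ST_S5B2 := by
  intro G _ D K v L hRed _ q w g hB hg4 hr hv
  classical
  obtain ⟨r, hr, hrg⟩ := hr
  have hq := hB.hq
  have hinj : ∀ a b : G, a • q = b • q → a = b := fun a b h => L.s5_inj hq h
  have hρq : ∀ k : G, L.ρ (k • q) = k • v := fun k => by rw [L.ρ_smul, hq]
  have hz2 : g ^ (2 : ℤ) = g * g := by rw [zpow_two]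
  have hz3 : g ^ (3 : ℤ) = g * g * g := by
    have : g ^ (3 : ℤ) = g ^ (3 : ℕ) := by exact_mod_cast rfl
    rw [this]; simp only [pow_succ, pow_zero, one_mul]
  have hz4 : g ^ (4 : ℤ) = g ^ 4 := by exact_mod_cast rfl
  have hpe : ∀ i : ℤ, g ^ i = 1 → i ≠ 1 ∧ i ≠ 2 ∧ i ≠ 3 ∧ i ≠ 4 := by
    intro i hi
    refine ⟨?_, ?_, ?_, ?_⟩
    · rintro rfl; rw [zpow_one] at hi; apply hB.g2; rw [hi, one_mul]
    · rintro rfl; rw [hz2] at hi; exact hB.g2 hi
    · rintro rfl; rw [hz3] at hi; exact hB.g3 hi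
    · rintro rfl; rw [hz4] at hi; exact hg4 hi
  have hpe2 : ∀ i j : ℤ, g ^ i = g ^ j → (i - j ≠ 1 ∧ i - j ≠ 2 ∧ i - j ≠ 3 ∧ i - j ≠ 4) ∧
      (j - i ≠ 1 ∧ j - i ≠ 2 ∧ j - i ≠ 3 ∧ j - i ≠ 4) := by
    intro i j h
    constructor
    · exact hpe _ (by rw [zpow_sub, h, mul_inv_cancel])
    · exact hpe _ (by rw [zpow_sub, h, mul_inv_cancel])
  -- `w` is in `<g> q`
  have hw : ∃ e : ℤ, w = g ^ e • q := by
    obtain ⟨m, hm⟩ := hB.inQ 0 2 r (by rw [zpow_zero, one_smul, hz2]; exact hr)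
    rw [zpow_zero, one_smul] at hm
    have e0 : ∀ m : G, m • q = m • g ^ (0 : ℤ) • q := fun m => by rw [zpow_zero, one_smul]
    have e1 : ∀ m : G, m • g • q = m • g ^ (1 : ℤ) • q := fun m => by rw [zpow_one]
    have e2 : ∀ m : G, m • (g * g) • q = m • g ^ (2 : ℤ) • q := fun m => by rw [hz2]
    have hfm : ∀ (m : G) (i j : ℤ), g ^ i • q = m • g ^ j • q → m = g ^ (i - j) := by
      intro m i j h
      rw [← mul_smul] at h
      have := hinj _ _ h
      rw [zpow_sub, this, mul_inv_cancel_right]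
    have hq0 : q = g ^ (0 : ℤ) • q := by rw [zpow_zero, one_smul]
    rcases hm with hm | hm
    · exfalso
      have m1 : q ∈ ({m • q, m • g • q, m • (g * g) • q} : Set L.R.V) := by rw [← hm]; simp
      have m2 : g ^ (2 : ℤ) • q ∈ ({m • q, m • g • q, m • (g * g) • q} : Set L.R.V) := by
        rw [← hm]; simp
      have m3 : r ∈ ({m • q, m • g • q, m • (g * g) • q} : Set L.R.V) := by rw [← hm]; simp
      rw [e0 m, e1 m, e2 m] at m1 m2 m3
      simp only [Set.mem_insert_iff, Set.mem_singleton_iff] at m1 m2 m3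
      have r1 : r ≠ q := (s5_tri_irr3 hr).symm
      have r2 : r ≠ (g * g) • q := (s5_tri_irr2 hr).symm
      have key : ∀ a b : ℤ, q = m • g ^ a • q → g ^ (2 : ℤ) • q = m • g ^ b • q →
          g ^ (0 - a) = g ^ (2 - b) := by
        intro a b h1 h2
        rw [← hfm m 2 b h2, hfm m 0 a (by rw [← hq0]; exact h1)]
      rcases m1 with h | h | h
      · have hm1 : m = 1 := by
          have := hfm m 0 0 (hq0.symm.trans h)
          rw [this]; simp
        rw [hm1] at m3
        simp only [one_smul, zpow_zero, zpow_one, hz2] at m3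
        rcases m3 with h3 | h3 | h3
        · exact r1 h3
        · exact hrg h3
        · exact r2 h3
      · rcases m2 with h2 | h2 | h2
        · have := (hpe2 _ _ (key 1 0 h h2)).2; omega
        · have := (hpe2 _ _ (key 1 1 h h2)).2; omega
        · have := (hpe2 _ _ (key 1 2 h h2)).2; omega
      · rcases m2 with h2 | h2 | h2
        · have := (hpe2 _ _ (key 2 0 h h2)).2; omega
        · have := (hpe2 _ _ (key 2 1 h h2)).2; omega
        · have := (hpe2 _ _ (key 2 2 h h2)).2; omega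
    · have m1 : q ∈ ({m • q, m • g • q, m • w} : Set L.R.V) := by rw [← hm]; simp
      have m2 : g ^ (2 : ℤ) • q ∈ ({m • q, m • g • q, m • w} : Set L.R.V) := by
        rw [← hm]; simp
      rw [e0 m, e1 m] at m1 m2
      simp only [Set.mem_insert_iff, Set.mem_singleton_iff] at m1 m2
      have key : ∀ a b : ℤ, q = m • g ^ a • q → g ^ (2 : ℤ) • q = m • g ^ b • q →
          g ^ (0 - a) = g ^ (2 - b) := by
        intro a b h1 h2
        rw [← hfm m 2 b h2, hfm m 0 a (by rw [← hq0]; exact h1)]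
      have hwform : ∀ (a : ℤ) (i j : ℤ), g ^ i • q = m • g ^ a • q → g ^ j • q = m • w →
          w = g ^ (a - i + j) • q := by
        intro a i j h1 h2
        have hm' := hfm m i a h1
        rw [hm', ← inv_smul_eq_iff, ← zpow_neg, ← mul_smul, ← zpow_add] at h2
        rw [← h2]
        congr 2
        ring
      rcases m1 with h | h | h
      · rcases m2 with h2 | h2 | h2
        · exact absurd (key 0 0 h h2) (fun hh => by have := (hpe2 _ _ hh).2; omega)
        · exact absurd (key 0 1 h h2) (fun hh => by have := (hpe2 _ _ hh).2; omega)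
        · exact ⟨_, hwform 0 0 2 (hq0.symm.trans h) h2⟩
      · rcases m2 with h2 | h2 | h2
        · exact absurd (key 1 0 h h2) (fun hh => by have := (hpe2 _ _ hh).2; omega)
        · exact absurd (key 1 1 h h2) (fun hh => by have := (hpe2 _ _ hh).2; omega)
        · exact ⟨_, hwform 1 0 2 (by rw [← hq0]; exact h) h2⟩
      · rcases m2 with h2 | h2 | h2
        · exact ⟨_, hwform 0 2 0 h2 (by rw [← hq0]; exact h)⟩
        · exact ⟨_, hwform 1 2 0 h2 (by rw [← hq0]; exact h)⟩
        · exfalso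
          rw [← h] at h2
          have := hinj _ 1 (by rw [h2, one_smul])
          exact (hpe _ this).2.1 rfl
  obtain ⟨e, hwe⟩ := hw
  -- all vertices of a triangle with two vertices in `<g> q`, with the exponents
  have hC : ∃ N : ℕ, ∀ (i j : ℤ) (t : L.R.V), L.R.tri (g ^ i • q) (g ^ j • q) t →
      ∃ l : ℤ, t = g ^ l • q ∧ ∃ n : ℤ, |n| ≤ N ∧ g ^ j = g ^ (i + n) := by
    refine ⟨2 + e.natAbs, ?_⟩
    intro i j t ht
    obtain ⟨m, hm⟩ := hB.inQ i j t ht
    have hx : ∃ a2 : ℤ, (a2 = 2 ∨ a2 = e) ∧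
        ({g ^ i • q, g ^ j • q, t} : Set L.R.V) = {m • g ^ (0 : ℤ) • q, m • g ^ (1 : ℤ) • q,
          m • g ^ a2 • q} := by
      rcases hm with hm | hm
      · refine ⟨2, Or.inl rfl, ?_⟩
        rw [hm, zpow_zero, one_smul, zpow_one, hz2]
      · refine ⟨e, Or.inr rfl, ?_⟩
        rw [hm, zpow_zero, one_smul, zpow_one, hwe]
    obtain ⟨a2, ha2, hs⟩ := hx
    have m1 : g ^ i • q ∈ ({g ^ i • q, g ^ j • q, t} : Set L.R.V) := by simp
    have m2 : g ^ j • q ∈ ({g ^ i • q, g ^ j • q, t} : Set L.R.V) := by simp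
    have m3 : t ∈ ({g ^ i • q, g ^ j • q, t} : Set L.R.V) := by simp
    rw [hs] at m1 m2 m3
    have hform : ∀ x : L.R.V, x ∈ ({m • g ^ (0 : ℤ) • q, m • g ^ (1 : ℤ) • q,
        m • g ^ a2 • q} : Set L.R.V) → ∃ a : ℤ, (a = 0 ∨ a = 1 ∨ a = a2) ∧ x = m • g ^ a • q := by
      rintro x (rfl | rfl | rfl)
      · exact ⟨0, Or.inl rfl, rfl⟩
      · exact ⟨1, Or.inr (Or.inl rfl), rfl⟩
      · exact ⟨a2, Or.inr (Or.inr rfl), rfl⟩
    obtain ⟨a, ha, f1⟩ := hform _ m1
    obtain ⟨b, hb, f2⟩ := hform _ m2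
    obtain ⟨c, hc, f3⟩ := hform _ m3
    have hme : m = g ^ (i - a) := by
      rw [← mul_smul] at f1
      rw [zpow_sub, hinj _ _ f1, mul_inv_cancel_right]
    refine ⟨i - a + c, by rw [f3, hme, ← mul_smul, ← zpow_add], b - a, ?_, ?_⟩
    · push_cast
      have he : |e| = (e.natAbs : ℤ) := Int.abs_eq_natAbs e
      rw [abs_le]
      have h5 : -|e| ≤ e ∧ e ≤ |e| := ⟨neg_abs_le e, le_abs_self e⟩
      have h6 : 0 ≤ |e| := abs_nonneg e
      rcases ha with rfl | rfl | rfl <;> rcases hb with rfl | rfl | rfl <;>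
        rcases ha2 with h7 | h7 <;> simp only [h7] at * <;> constructor <;> omega
    · rw [← mul_smul, hme, ← zpow_add] at f2
      rw [hinj _ _ f2]
      congr 1
      ring
  obtain ⟨N, hC⟩ := hC
  -- neighbours of `v`
  have hlink := (hRed.R2 v (Or.inr hv)).1
  have hq0 : q = g ^ (0 : ℤ) • q := by rw [zpow_zero, one_smul]
  have hKgv : K.adj v (g • v) := by
    rcases L.adj1 _ _ hB.hadj with h | h
    · rw [L.ρ_smul, hq] at h; exact absurd h.symm hB.gv
    · rwa [L.ρ_smul, hq] at h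
  have hnb : ∀ y, K.adj v y → ∃ (l : ℤ) (t : L.R.V), y = g ^ l • v ∧ L.R.tri q (g ^ l • q) t := by
    intro y hy
    have hr' := hlink (g • v) y hKgv hy
    clear hy
    induction hr' with
    | refl => exact ⟨1, _, by rw [zpow_one], by rw [zpow_one]; exact hB.t0⟩
    | @tail y y' _ hst ih =>
      obtain ⟨l, t, hy, ht⟩ := ih
      obtain ⟨p0, p1, p2, f0, f1, f2, hR, -⟩ := L.lift _ _ _ hst
      have hal := L.alpha q (g ^ l • q) (L.R.tri_adj _ _ _ ht) (by
        have h1 := s5b1_ne L hq hB.hadj hB.gv (i := 0) (j := l)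
          (by rw [← hq0]; exact L.R.tri_adj _ _ _ ht)
        rw [zpow_zero, one_smul] at h1
        rw [hq, hρq]; exact h1) (by
        intro t' ht'
        have ht'' := ht'
        rw [hq0] at ht''
        obtain ⟨l', rfl, -⟩ := hC 0 l t' (by
          have := ht'
          rw [zpow_zero, one_smul]; exact this)
        have h1 := s5b1_ne L hq hB.hadj hB.gv (i := 0) (j := l')
          (by rw [← hq0]; exact s5_tri_adj3 ht')
        have h2 := s5b1_ne L hq hB.hadj hB.gv (i := l) (j := l') (s5_tri_adj2 ht')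
        rw [zpow_zero, one_smul] at h1
        rw [hρq, hq, hρq]
        exact ⟨fun h => h1 h.symm, fun h => h2 h.symm⟩) p0 p1 (L.R.tri_adj _ _ _ hR)
        (by rw [f0, hq]) (by rw [f1, hρq, hy])
      obtain ⟨rfl, rfl⟩ := hal
      obtain ⟨l', hl', -⟩ := hC 0 l p2 (by rw [zpow_zero, one_smul]; exact hR)
      refine ⟨l', g ^ l • p0, ?_, ?_⟩
      · rw [← f2, hl', hρq]
      · rw [← hl']; exact s5_tri_swap23 hR
  -- finitely many neighbours
  have hfin : {y | K.adj v y}.Finite := by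
    have hsub : {y | K.adj v y} ⊆ (fun n : ℤ => g ^ n • v) '' (Set.Icc (-(N : ℤ)) N) := by
      intro y hy
      obtain ⟨l, t, rfl, ht⟩ := hnb y hy
      obtain ⟨-, -, n, hn, hgn⟩ := hC 0 l t (by rw [zpow_zero, one_smul]; exact ht)
      rw [abs_le] at hn
      refine ⟨n, ⟨hn.1, hn.2⟩, ?_⟩
      simp only
      rw [hgn, zero_add]
    exact ((Set.finite_Icc _ _).image _).subset hsub
  -- but there are infinitely many
  have hzv : L.z • v = v := by
    have : L.z ∈ stabilizer G v := by rw [L.zstab]; exact Subgroup.mem_zpowers _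
    exact mem_stabilizer_iff.mp this
  have hzvi : ∀ i : ℤ, L.z ^ i • v = v := by
    intro i
    have : L.z ^ i ∈ stabilizer G v := by
      rw [L.zstab]; exact Subgroup.zpow_mem_zpowers _ _
    exact mem_stabilizer_iff.mp this
  have hinf : Set.Infinite {y | K.adj v y} := by
    apply Set.infinite_of_injective_forall_mem (f := fun i : ℤ => L.z ^ i • (g • v))
    · intro i j hij
      simp only at hij
      have h1 : (L.z ^ (i - j)) • (g • v) = g • v := by
        rw [zpow_sub, ((Commute.refl L.z).zpow_zpow i j).inv_right.eq, mul_smul, hij,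
          inv_smul_smul]
      have h2 := L.lonely _ hKgv _ (hzvi (i - j)) h1
      have h3 := injective_zpow_iff_not_isOfFinOrder.mpr L.zinf
        (show L.z ^ (i - j) = L.z ^ (0 : ℤ) by rw [h2, zpow_zero])
      omega
    · intro i
      change K.adj v (L.z ^ i • (g • v))
      have := K.smul_adj (L.z ^ i) _ _ hKgv
      rwa [hzvi] at this
  exact hinf hfin

end Pool.Agent.Helper93.HZ
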