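import Pool.Agent.Helper12.HZ.S5Base

/-!
# HZ: module S5B3
-/

set_option autoImplicit false

open MulAction Pointwise

namespace Pool.Agent.Helper93.HZ

variable {G : Type} [Group G]

/-- the orbit of the oriented edge `(v, g² v)` -/
def s5b3E (K : Cx G) (v : K.V) (g : G) (a b : K.V) : Prop :=
  ∃ h : G, a = h • v ∧ b = h • (g * g) • v

section Removal

variable (K : Cx G) (v x : K.V) (g : G)

theorem s5b3E_symm (hg4 : g ^ 4 = 1) {a b : K.V} (h : s5b3E K v g a b) : s5b3E K v g b a := by
  obtain ⟨h, rfl, rfl⟩ := h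
  refine ⟨h * (g * g), (mul_smul _ _ _).symm, ?_⟩
  rw [← mul_smul (h * (g * g)) (g * g) v]
  have : h * (g * g) * (g * g) = h := by
    have h1 : g * g * (g * g) = 1 := by
      rw [← hg4]; simp only [pow_succ, pow_zero, one_mul, mul_assoc]
    rw [mul_assoc, h1, mul_one]
  rw [this]

theorem s5b3E_smul {a b : K.V} (k : G) (h : s5b3E K v g a b) : s5b3E K v g (k • a) (k • b) := by
  obtain ⟨h, rfl, rfl⟩ := h
  exact ⟨k * h, (mul_smul _ _ _).symm, (mul_smul _ _ _).symm⟩

theorem s5b3E_smul_iff {a b : K.V} (k : G) : s5b3E K v g (k • a) (k • b) ↔ s5b3E K v g a b := by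
  constructor
  · intro h
    have := s5b3E_smul K v g k⁻¹ h
    simpa using this
  · exact s5b3E_smul K v g k

theorem s5b3_removal (hg4 : g ^ 4 = 1) (hT : K.tri v (g • v) ((g * g) • v))
    (hth : ∀ y, K.tri v ((g * g) • v) y → y = g • v ∨ y = g⁻¹ • v)
    (hst : ∀ h : G, h • v = v → h • (g * g) • v = (g * g) • v → h = 1)
    (hx : K.tri x v (g • v)) (hgx : g • x = x) (hxv : ∀ h : G, x ≠ h • v) :
    ∃ K' : Cx G, rr K' < rr K := by
  classical
  set E := s5b3E K v g with hE
  have hEs : ∀ {a b : K.V}, E a b → E b a := fun h => s5b3E_symm K v g hg4 h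
  have hgg : g * g * (g * g) = 1 := by
    rw [← hg4]; simp only [pow_succ, pow_zero, one_mul, mul_assoc]
  -- an edge in a triangle with third vertex outside the orbit of `v` is not in the orbit `E`
  have hnE : ∀ a b d : K.V, K.tri a b d → (∀ h : G, d ≠ h • v) → ¬ E a b := by
    rintro a b d ht hd ⟨h, rfl, rfl⟩
    have h1 := K.smul_tri h⁻¹ _ _ _ ht
    rw [inv_smul_smul, inv_smul_smul] at h1
    rcases hth _ h1 with h2 | h2
    · apply hd (h * g)
      rw [mul_smul, ← h2, smul_inv_smul]
    · apply hd (h * g⁻¹)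
      rw [mul_smul, ← h2, smul_inv_smul]
  have hxor : ∀ (k h : G), k • x ≠ h • v := by
    intro k h hh
    apply hxv (k⁻¹ * h)
    rw [mul_smul, ← hh, inv_smul_smul]
  have hg2x : (g * g) • x = x := by rw [mul_smul, hgx, hgx]
  -- edges with an end outside the orbit of `v`
  have hnEx : ∀ (k : G) (b : K.V), ¬ E (k • x) b := by
    rintro k b ⟨h, h1, -⟩
    exact hxor k h h1
  have hnEx' : ∀ (k : G) (b : K.V), ¬ E b (k • x) := fun k b h => hnEx k b (hEs h)
  -- cone triangles
  have hcone1 : ∀ k : G, K.tri (k • x) (k • v) (k • g • v) := fun k => K.smul_tri k _ _ _ hx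
  have hE1 : ∀ k : G, ¬ E (k • v) (k • g • v) := by
    intro k
    apply hnE _ _ (k • x)
    · exact K.tri_rot _ _ _ (hcone1 k)
    · intro h; exact hxor k h
  -- uniqueness
  have huniq : ∀ h k : G, h • v = k • v → h • (g * g) • v = k • (g * g) • v → h = k := by
    intro h k h1 h2
    have h3 := hst (k⁻¹ * h) (by rw [mul_smul, h1, inv_smul_smul])
      (by rw [mul_smul, h2, inv_smul_smul])
    exact (inv_mul_eq_one.mp h3).symm
  -- the new complex
  set adj' : K.V → K.V → Prop := fun a b => K.adj a b ∧ ¬ E a b with hadj'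
  set tri' : K.V → K.V → K.V → Prop := fun a b d => K.tri a b d ∧ ¬ E a b ∧ ¬ E b d ∧ ¬ E a d
    with htri'
  have hvx : K.adj v x := K.symm _ _ (K.tri_adj _ _ _ hx)
  have hadjx : ∀ k : G, adj' (k • v) (k • x) := fun k =>
    ⟨K.smul_adj k _ _ hvx, hnEx' k _⟩
  have hadjx2 : ∀ k : G, adj' (k • x) (k • v) := fun k =>
    ⟨K.smul_adj k _ _ (K.symm _ _ hvx), hnEx k _⟩
  have hadjx' : ∀ k : G, adj' (k • x) (k • (g * g) • v) := by
    intro k
    have := hadjx2 (k * (g * g))
    rwa [mul_smul, hg2x, mul_smul k] at this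
  have hsc : SC adj' tri' := by
    intro H _ c hc1 hc2
    -- apex of an edge in `E`
    have hex : ∀ a b : K.V, ∃ X : K.V, ∀ h : G, a = h • v → b = h • (g * g) • v → X = h • x := by
      intro a b
      by_cases hab : E a b
      · obtain ⟨h, h1, h2⟩ := hab
        refine ⟨h • x, fun k hk1 hk2 => ?_⟩
        rw [huniq h k (by rw [← h1, hk1]) (by rw [← h2, hk2])]
      · exact ⟨a, fun k hk1 hk2 => absurd ⟨k, hk1, hk2⟩ hab⟩
    choose X hX using hex
    set c' : K.V → K.V → H := fun a b => if E a b then c a (X a b) * c (X a b) b else c a b with hc'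
    have hcE : ∀ h : G, c' (h • v) (h • (g * g) • v) =
        c (h • v) (h • x) * c (h • x) (h • (g * g) • v) := by
      intro h
      have h1 : E (h • v) (h • (g * g) • v) := ⟨h, rfl, rfl⟩
      simp only [hc', if_pos h1]
      rw [hX _ _ h rfl rfl]
    have hcN : ∀ a b : K.V, ¬ E a b → c' a b = c a b := by
      intro a b h
      simp only [hc', if_neg h]
    have hcE2 : ∀ h : G, c' (h • (g * g) • v) (h • v) =
        c (h • (g * g) • v) (h • x) * c (h • x) (h • v) := by
      intro h
      have h1 := hcE (h * (g * g))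
      have h2 : (h * (g * g)) • (g * g) • v = h • v := by
        rw [← mul_smul, mul_assoc, hgg, mul_one]
      rw [h2, mul_smul h (g * g) v, mul_smul h (g * g) x, hg2x] at h1
      exact h1
    have hinv : ∀ a b : K.V, adj' a b → c b a = (c a b)⁻¹ := by
      intro a b h
      exact (inv_eq_of_mul_eq_one_right (hc1 a b h)).symm
    -- decomposition through the apex
    have hdec : ∀ h : G, c (h • v) (h • g • v) = c (h • v) (h • x) * c (h • x) (h • g • v) := by
      intro h
      have ht : tri' (h • x) (h • v) (h • g • v) :=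
        ⟨hcone1 h, hnEx h _, hE1 h, hnEx h _⟩
      have h1 := hc2 _ _ _ ht
      have h2 := hinv _ _ (hadjx h)
      have h3 : adj' (h • x) (h • g • v) := by
        have := hadjx2 (h * g)
        rwa [mul_smul, hgx, mul_smul] at this
      have h4 := hinv _ _ h3
      rw [h4, h2] at h1
      have h5 : c (h • v) (h • g • v) = c (h • v) (h • x) *
          ((c (h • v) (h • x))⁻¹ * c (h • v) (h • g • v) * (c (h • x) (h • g • v))⁻¹) *
            c (h • x) (h • g • v) := by group
      rw [h5, h1, mul_one]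
    have hdec' : ∀ h : G, c (h • g • v) (h • v) = c (h • g • v) (h • x) * c (h • x) (h • v) := by
      intro h
      have h3 : adj' (h • x) (h • g • v) := by
        have := hadjx2 (h * g)
        rwa [mul_smul, hgx, mul_smul] at this
      have h4 : adj' (h • v) (h • g • v) :=
        ⟨K.smul_adj h _ _ (s5_tri_adj2 hx), hE1 h⟩
      rw [hinv _ _ h4, hdec h, mul_inv_rev, hinv _ _ h3, hinv _ _ (hadjx h)]
    -- the triangle condition if the first edge is in `E`
    have hkey : ∀ a b d : K.V, K.tri a b d → E a b → c' a b * c' b d * c' d a = 1 := by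
      rintro a b d ht ⟨h, rfl, rfl⟩
      have h1 := K.smul_tri h⁻¹ _ _ _ ht
      rw [inv_smul_smul, inv_smul_smul] at h1
      have hd : d = h • g • v ∨ d = h • g⁻¹ • v := by
        rcases hth _ h1 with h2 | h2
        · left; rw [← h2, smul_inv_smul]
        · right; rw [← h2, smul_inv_smul]
      have hgx' : g⁻¹ • x = x := by rw [inv_smul_eq_iff, hgx]
      rcases hd with rfl | rfl
      · -- d = h g v
        have e1 : h • (g * g) • v = (h * g) • g • v := by simp only [mul_smul]
        have e2 : (h * g) • v = h • g • v := by simp only [mul_smul]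
        have e3 : (h * g) • x = h • x := by rw [mul_smul, hgx]
        have n1 : ¬ E (h • (g * g) • v) (h • g • v) := by
          rw [e1, ← e2]; intro hh; exact hE1 (h * g) (hEs hh)
        have n2 : ¬ E (h • g • v) (h • v) := fun hh => hE1 h (hEs hh)
        rw [hcE h, hcN _ _ n1, hcN _ _ n2, hdec' h]
        have h2 := hdec' (h * g)
        rw [← e1, e2, e3] at h2
        rw [h2]
        have h3 : adj' (h • x) (h • (g * g) • v) := hadjx' h
        rw [hinv _ _ h3]
        have h4 : adj' (h • x) (h • g • v) := by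
          have := hadjx2 (h * g)
          rwa [e2, e3] at this
        rw [hinv _ _ h4, hinv _ _ (hadjx h)]
        group
      · -- d = h g⁻¹ v
        have e0 : g⁻¹ = g * g * g := by
          rw [inv_eq_iff_mul_eq_one]; rw [← hgg]; group
        have e1 : h • g⁻¹ • v = (h * (g * g)) • g • v := by
          rw [e0]; simp only [mul_smul]
        have e2 : (h * (g * g)) • v = h • (g * g) • v := by rw [mul_smul]
        have e3 : (h * (g * g)) • x = h • x := by rw [mul_smul, hg2x]
        have e4 : (h * g⁻¹) • g • v = h • v := by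
          rw [← mul_smul, inv_mul_cancel_right]
        have e5 : (h * g⁻¹) • v = h • g⁻¹ • v := by rw [mul_smul]
        have e6 : (h * g⁻¹) • x = h • x := by rw [mul_smul, hgx']
        have n1 : ¬ E (h • (g * g) • v) (h • g⁻¹ • v) := by
          rw [e1, ← e2]; exact hE1 _
        have n2 : ¬ E (h • g⁻¹ • v) (h • v) := by
          rw [← e5, ← e4]; exact hE1 _
        have d1 := hdec (h * (g * g))
        rw [← e1, e2, e3] at d1
        have d2 := hdec (h * g⁻¹)
        rw [e4, e5, e6] at d2
        rw [hcE h, hcN _ _ n1, hcN _ _ n2, d1, d2]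
        have h3 : adj' (h • x) (h • (g * g) • v) := hadjx' h
        have h4 : adj' (h • x) (h • g⁻¹ • v) := by
          have := hadjx2 (h * g⁻¹)
          rwa [e5, e6] at this
        rw [hinv _ _ h3, hinv _ _ h4, hinv _ _ (hadjx h)]
        group
    have hrot : ∀ p q r : H, p * q * r = 1 → q * r * p = 1 := by
      intro p q r h
      have h2 : q * r * p = p⁻¹ * (p * q * r) * p := by group
      rw [h2, h]; group
    obtain ⟨f, hf⟩ := K.sc H c' (by
      intro a b hab
      by_cases hEab : E a b
      · obtain ⟨h, rfl, rfl⟩ := hEab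
        rw [hcE h, hcE2 h, hinv _ _ (hadjx' h), hinv _ _ (hadjx h)]
        group
      · rw [hcN _ _ hEab, hcN _ _ (fun h => hEab (hEs h))]
        exact hc1 a b ⟨hab, hEab⟩) (by
      intro a b d ht
      by_cases h1 : E a b
      · exact hkey a b d ht h1
      by_cases h2 : E b d
      · have := hkey b d a (K.tri_rot _ _ _ ht) h2
        exact hrot _ _ _ (hrot _ _ _ this)
      by_cases h3 : E d a
      · have := hkey d a b (K.tri_rot _ _ _ (K.tri_rot _ _ _ ht)) h3
        exact hrot _ _ _ this
      rw [hcN _ _ h1, hcN _ _ h2, hcN _ _ h3]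
      exact hc2 a b d ⟨ht, h1, h2, fun h => h3 (hEs h)⟩)
    refine ⟨f, ?_⟩
    intro a b hab
    rw [← hf a b hab.1, hcN _ _ hab.2]
  have hconn : ∀ a b : K.V, Relation.ReflTransGen adj' a b := by
    intro a b
    have h := K.conn a b
    induction h with
    | refl => exact Relation.ReflTransGen.refl
    | @tail b' c' _ hbc ih =>
      refine ih.trans ?_
      by_cases hE' : E b' c'
      · obtain ⟨h, rfl, rfl⟩ := hE'
        exact (Relation.ReflTransGen.single (hadjx h)).trans
          (Relation.ReflTransGen.single (hadjx' h))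
      · exact Relation.ReflTransGen.single ⟨hbc, hE'⟩
  let K' : Cx G :=
    { V := K.V
      act := K.act
      adj := adj'
      tri := tri'
      ne := K.ne
      symm := fun a b h => ⟨K.symm _ _ h.1, fun hh => h.2 (hEs hh)⟩
      irrefl := fun a h => K.irrefl a h.1
      nbr := by
        intro a
        obtain ⟨b, hb⟩ := K.nbr a
        by_cases hE' : E a b
        · obtain ⟨h, rfl, rfl⟩ := hE'
          exact ⟨_, hadjx h⟩
        · exact ⟨b, hb, hE'⟩
      tri_adj := fun a b d h => ⟨K.tri_adj _ _ _ h.1, h.2.1⟩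
      tri_rot := fun a b d h => ⟨K.tri_rot _ _ _ h.1, h.2.2.1, fun hh => h.2.2.2 (hEs hh),
        fun hh => h.2.1 (hEs hh)⟩
      tri_swap := fun a b d h => ⟨K.tri_swap _ _ _ h.1, fun hh => h.2.1 (hEs hh), h.2.2.2,
        h.2.2.1⟩
      smul_adj := fun k a b h => ⟨K.smul_adj k _ _ h.1,
        fun hh => h.2 ((s5b3E_smul_iff K v g k).mp hh)⟩
      smul_tri := fun k a b d h => ⟨K.smul_tri k _ _ _ h.1,
        fun hh => h.2.1 ((s5b3E_smul_iff K v g k).mp hh),
        fun hh => h.2.2.1 ((s5b3E_smul_iff K v g k).mp hh),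
        fun hh => h.2.2.2 ((s5b3E_smul_iff K v g k).mp hh)⟩
      conn := hconn
      sc := hsc
      finE := s5_finorb_mono K.finE (fun p hp => hp.1)
      finT := s5_finorb_mono K.finT (by
        rintro s ⟨a, b, d, h, rfl⟩
        exact ⟨a, b, d, h.1, rfl⟩)
      stab := K.stab }
  refine ⟨K', ?_⟩
  have h1 : rr K' + 1 ≤ rr K := by
    refine s5_oc_lt (s := ({v, g • v, (g * g) • v} : Set K.V)) K.finT ?_ ?_ ?_
    · rintro s ⟨a, b, d, h, rfl⟩
      exact ⟨a, b, d, h.1, rfl⟩
    · exact ⟨_, _, _, hT, rfl⟩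
    · rintro h ⟨a, b, d, ht, hs⟩
      have m1 : h • v ∈ ({a, b, d} : Set K.V) := by
        rw [← hs]
        exact Set.smul_mem_smul_set (by simp)
      have m2 : h • (g * g) • v ∈ ({a, b, d} : Set K.V) := by
        rw [← hs]
        exact Set.smul_mem_smul_set (by simp)
      have hne : h • v ≠ h • (g * g) • v := by
        intro h2
        exact s5_tri_irr3 hT (smul_left_cancel h h2)
      have hEh : E (h • v) (h • (g * g) • v) := ⟨h, rfl, rfl⟩
      have hEh' := hEs hEh
      obtain ⟨ht0, n1, n2, n3⟩ := ht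
      rcases m1 with m1 | m1 | m1 <;> rcases m2 with m2 | m2 | m2
      · exact hne (m1.trans m2.symm)
      · rw [m1, m2] at hEh; exact n1 hEh
      · rw [m1, Set.mem_singleton_iff.mp m2] at hEh; exact n3 hEh
      · rw [m1, m2] at hEh'; exact n1 hEh'
      · exact hne (m1.trans m2.symm)
      · rw [m1, Set.mem_singleton_iff.mp m2] at hEh; exact n2 hEh
      · rw [Set.mem_singleton_iff.mp m1, m2] at hEh'; exact n3 hEh'
      · rw [Set.mem_singleton_iff.mp m1, m2] at hEh'; exact n2 hEh'
      · exact hne ((Set.mem_singleton_iff.mp m1).trans (Set.mem_singleton_iff.mp m2).symm)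
  omega

end Removal


/-- facts on case B shared by several steps -/
theorem s5b3_g2v {K : Cx G} {v : K.V} {L : LB K v} {q w : L.R.V} {g : G}
    (hB : CaseB K v L q w g) (hg4 : g ^ 4 = 1) : (g * g) • v ≠ v := by
  intro h
  have h1 := L.s5_tf h (n := 2) (by norm_num) (by
    rw [← hg4]; simp only [pow_succ, pow_zero, one_mul, mul_assoc])
  exact hB.g2 h1

/-- any three-set dichotomy -/
theorem s5b3_dich {K : Cx G} {v : K.V} {L : LB K v} {q w : L.R.V} {g : G}
    (hB : CaseB K v L q w g) {a b c : L.R.V} (ht : L.R.tri a b c) {k : G} {i j : ℤ}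
    (ha : k • a = g ^ i • q) (hb : k • b = g ^ j • q) :
    ∃ m : G, ({a, b, c} : Set L.R.V) = {m • q, m • g • q, m • (g * g) • q} ∨
      ({a, b, c} : Set L.R.V) = {m • q, m • g • q, m • w} := by
  have h1 := L.R.smul_tri k _ _ _ ht
  rw [ha, hb] at h1
  obtain ⟨m, hm⟩ := hB.inQ i j _ h1
  have h2 : ∀ y z t : L.R.V, ({g ^ i • q, g ^ j • q, k • c} : Set L.R.V) = {y, z, t} →
      ({a, b, c} : Set L.R.V) = {k⁻¹ • y, k⁻¹ • z, k⁻¹ • t} := by
    intro y z t h
    rw [← s5_smul_triple, ← h, s5_smul_triple, ← ha, ← hb, inv_smul_smul, inv_smul_smul,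
      inv_smul_smul]
  refine ⟨k⁻¹ * m, ?_⟩
  rcases hm with hm | hm
  · left
    rw [h2 _ _ _ hm]
    simp only [mul_smul]
  · right
    rw [h2 _ _ _ hm]
    simp only [mul_smul]

theorem s5b3_T2ne {K : Cx G} {v : K.V} {L : LB K v} {q w : L.R.V} {g : G}
    (hB : CaseB K v L q w g) (m : G) :
    ({q, g • q, w} : Set L.R.V) ≠ {m • q, m • g • q, m • (g * g) • q} := by
  intro h
  have hq := hB.hq
  have hinj : ∀ a b : G, a • q = b • q → a = b := fun a b h => L.s5_inj hq h
  have hg1 : g ≠ 1 := by
    rintro rfl; exact hB.g2 (by simp)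
  have m1 : q ∈ ({m • q, m • g • q, m • (g * g) • q} : Set L.R.V) := by rw [← h]; simp
  have m2 : g • q ∈ ({m • q, m • g • q, m • (g * g) • q} : Set L.R.V) := by rw [← h]; simp
  have m3 : w ∈ ({m • q, m • g • q, m • (g * g) • q} : Set L.R.V) := by rw [← h]; simp
  have hwq : w ≠ q := (s5_tri_irr3 hB.t2).symm
  have hwgq : w ≠ g • q := (s5_tri_irr2 hB.t2).symm
  simp only [Set.mem_insert_iff, Set.mem_singleton_iff, ← mul_smul] at m1 m2 m3
  rcases m1 with m1 | m1 | m1
  · -- m = 1
    have e : m = 1 := by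
      apply hinj; rw [← m1, one_smul]
    subst e
    rcases m3 with m3 | m3 | m3
    · rw [one_smul] at m3; exact hwq m3
    · rw [one_mul] at m3; exact hwgq m3
    · rw [one_mul] at m3; exact hB.w2 m3
  · have e : m = g⁻¹ := by
      have : m * g = 1 := by apply hinj; rw [← m1, one_smul]
      exact eq_inv_of_mul_eq_one_left this
    subst e
    rcases m3 with m3 | m3 | m3
    · exact hB.w1 m3
    · rw [inv_mul_cancel, one_smul] at m3; exact hwq m3
    · rw [inv_mul_cancel_left] at m3; exact hwgq m3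
  · have e : m = g⁻¹ * g⁻¹ := by
      have : m * (g * g) = 1 := by apply hinj; rw [← m1, one_smul]
      rw [eq_inv_of_mul_eq_one_left this, mul_inv_rev]
    subst e
    rcases m2 with m2 | m2 | m2
    · have := hinj _ _ m2
      apply hB.g3
      calc g * g * g = g * g * (g⁻¹ * g⁻¹) := by rw [← this]
        _ = 1 := by group
    · have := hinj _ _ m2
      apply hB.g2
      calc g * g = g * (g⁻¹ * g⁻¹ * g) := by rw [← this]
        _ = 1 := by group
    · have := hinj _ _ m2
      apply hg1
      calc g = g⁻¹ * g⁻¹ * (g * g) := this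
        _ = 1 := by group

/-- the value under `ρ` of a translate of `T₀` is injective -/
theorem s5b3_T0inj {K : Cx G} {v : K.V} {L : LB K v} {q w : L.R.V} {g : G}
    (hB : CaseB K v L q w g) (hg2v : (g * g) • v ≠ v) (m : G) {a b : L.R.V}
    (ha : a ∈ ({m • q, m • g • q, m • (g * g) • q} : Set L.R.V))
    (hb : b ∈ ({m • q, m • g • q, m • (g * g) • q} : Set L.R.V)) (h : L.ρ a = L.ρ b) : a = b := by
  have hq := hB.hq
  have e0 : L.ρ (m • q) = m • v := by rw [L.ρ_smul, hq]
  have e1 : L.ρ (m • g • q) = m • g • v := by rw [L.ρ_smul, L.ρ_smul, hq]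
  have e2 : L.ρ (m • (g * g) • q) = m • (g * g) • v := by rw [L.ρ_smul, L.ρ_smul, hq]
  have n1 : m • v ≠ m • g • v := fun hh => hB.gv (smul_left_cancel m hh).symm
  have n2 : m • v ≠ m • (g * g) • v := fun hh => hg2v (smul_left_cancel m hh).symm
  have n3 : m • g • v ≠ m • (g * g) • v := by
    intro hh
    have := smul_left_cancel m hh
    rw [mul_smul] at this
    exact hB.gv (smul_left_cancel g this).symm
  simp only [Set.mem_insert_iff, Set.mem_singleton_iff] at ha hb
  rcases ha with rfl | rfl | rfl <;> rcases hb with rfl | rfl | rfl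
  · rfl
  · rw [e0, e1] at h; exact absurd h n1
  · rw [e0, e2] at h; exact absurd h n2
  · rw [e0, e1] at h; exact absurd h.symm n1
  · rfl
  · rw [e1, e2] at h; exact absurd h n3
  · rw [e0, e2] at h; exact absurd h.symm n2
  · rw [e1, e2] at h; exact absurd h.symm n3
  · rfl

/-- existence of the vertex `w` whose triangles all are in the orbit of `T₂` -/
theorem s5b3_w (hCON : ST_CON) (D : Setup G) {K : Cx G} {v : K.V} {L : LB K v}
    {q w : L.R.V} {g : G} (hNM : NMax K) (hB : CaseB K v L q w g) (hg4 : g ^ 4 = 1) :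
    (∀ h : G, L.ρ w ≠ h • v) ∧ Finite (stabilizer G w) ∧ stabilizer G w ≠ ⊥ ∧
      ∀ p p', L.R.tri w p p' → ∃ m : G, m • w = w ∧
        ((p = m • q ∧ p' = m • g • q) ∨ (p = m • g • q ∧ p' = m • q)) := by
  classical
  have hq := hB.hq
  have hg2v := s5b3_g2v hB hg4
  obtain ⟨K', π, hsurj, hπs, hπ, hπQ, htri, hstab, hrr⟩ := s5_con hCON D L hq hB.hadj
  have hπq : π q = π (g • q) := by
    have := hπQ 0 1
    simpa using this
  have hρorb : ∀ (k : G) (i : ℤ) (p : L.R.V), k • p = g ^ i • q → L.ρ p = (k⁻¹ * g ^ i) • v := by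
    intro k i p h
    have : p = (k⁻¹ * g ^ i) • q := by rw [mul_smul, ← h, inv_smul_smul]
    rw [this, L.ρ_smul, hq]
  -- singleton classes
  have hsing : ∀ p p' : L.R.V, (∀ h : G, L.ρ p ≠ h • v) → π p = π p' → p = p' := by
    intro p p' hp h
    rcases hπ p p' h with h1 | ⟨k, i, j, h1, h2⟩
    · exact h1
    · exact absurd (hρorb k i p h1) (hp _)
  -- rr
  have h2 : 2 ≤ oc G {s : Set L.R.V | ∃ x y z, L.R.tri x y z ∧ π x = π y ∧ s = {x, y, z}} := by
    refine s5_oc_ge2 (s := ({q, g • q, (g * g) • q} : Set L.R.V)) (s' := {q, g • q, w}) ?_ ?_ ?_ ?_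
    · refine s5_finorb_mono L.R.finT ?_
      rintro s ⟨x, y, z, h, -, rfl⟩
      exact ⟨x, y, z, h, rfl⟩
    · exact ⟨_, _, _, hB.t0, hπq, rfl⟩
    · exact ⟨_, _, _, hB.t2, hπq, rfl⟩
    · intro m hm
      rw [s5_smul_triple] at hm
      exact s5b3_T2ne hB m hm
  have h3 := L.delta1
  rw [hB.oc2] at h3
  have h4 : rr K ≤ rr K' := hNM.1 K'
  have h5 : rr K' = rr K := by omega
  have hnn : nn K' ≤ nn K := hNM.2 K' h5
  -- the class Q lies in a triangle
  have hQ : ∃ y z, K'.tri (π q) y z := by
    by_contra hcon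
    push Not at hcon
    have h6 : oc G {s : Set L.R.V | ∃ p q r, L.R.tri p q r ∧ L.ρ p = L.ρ q ∧ s = {p, q, r}} ≤ 1 := by
      refine s5_oc_le1 (s := ({q, g • q, w} : Set L.R.V)) ?_
      rintro s ⟨a, b, c, ht, hab, rfl⟩
      have hane : a ≠ b := s5_tri_irr ht
      have haorb : ∃ h : G, L.ρ a = h • v := by
        by_contra hno
        push Not at hno
        exact hane (L.inj a b hab hno)
      obtain ⟨h, hh⟩ := haorb
      obtain ⟨n, rfl⟩ := L.s5_orb hq hh
      have hnd : ¬ (π (n • q) ≠ π b ∧ π b ≠ π c ∧ π (n • q) ≠ π c) := by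
        intro hd
        have h7 : K'.tri (π (n • q)) (π b) (π c) :=
          (htri _ _ _).mpr ⟨hd.1, hd.2.1, hd.2.2, _, _, _, ht, rfl, rfl, rfl⟩
        have h8 := K'.smul_tri n⁻¹ _ _ _ h7
        rw [hπs, inv_smul_smul] at h8
        exact hcon _ _ h8
      have key : ∃ m : G, ({n • q, b, c} : Set L.R.V) = {m • q, m • g • q, m • (g * g) • q} ∨
          ({n • q, b, c} : Set L.R.V) = {m • q, m • g • q, m • w} := by
        by_cases c1 : π (n • q) = π b
        · rcases hπ _ _ c1 with h9 | ⟨k, i, j, h9, h10⟩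
          · exact absurd h9 hane
          · exact s5b3_dich hB ht h9 h10
        by_cases c2 : π b = π c
        · rcases hπ _ _ c2 with h9 | ⟨k, i, j, h9, h10⟩
          · exact absurd h9 (s5_tri_irr2 ht)
          · have h11 := s5b3_dich hB (L.R.tri_rot _ _ _ ht) h9 h10
            have h12 : ({b, c, n • q} : Set L.R.V) = {n • q, b, c} := by
              ext y; simp only [Set.mem_insert_iff, Set.mem_singleton_iff]; tauto
            rwa [h12] at h11
        by_cases c3 : π (n • q) = π c
        · rcases hπ _ _ c3 with h9 | ⟨k, i, j, h9, h10⟩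
          · exact absurd h9 (s5_tri_irr3 ht)
          · have h11 := s5b3_dich hB (s5_tri_swap23 ht) h9 h10
            have h12 : ({n • q, c, b} : Set L.R.V) = {n • q, b, c} := by
              ext y; simp only [Set.mem_insert_iff, Set.mem_singleton_iff]; tauto
            rwa [h12] at h11
        exact absurd ⟨c1, c2, c3⟩ hnd
      obtain ⟨m, hm | hm⟩ := key
      · exfalso
        apply hane
        apply s5b3_T0inj hB hg2v m _ _ hab
        · rw [← hm]; simp
        · rw [← hm]; simp
      · exact ⟨m, by rw [s5_smul_triple, hm]⟩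
    rw [hB.oc2] at h6
    omega
  -- the lost vertex
  have hlost : ∃ w' : L.R.V, (∀ h : G, L.ρ w' ≠ h • v) ∧ Finite (stabilizer G w') ∧
      stabilizer G w' ≠ ⊥ ∧ (∃ p p', L.R.tri w' p p') ∧ ∀ p p', L.R.tri w' p p' → π p = π p' := by
    by_contra hcon
    push Not at hcon
    have hcount : nn K + 1 ≤ nn K' := by
      unfold nn oc
      set A : Set (Set K.V) := (fun x : K.V => orbit G x) ''
        {x : K.V | (∃ y z, K.tri x y z) ∧ Finite (stabilizer G x) ∧ stabilizer G x ≠ ⊥} with hA
      set B : Set (Set K'.V) := (fun x : K'.V => orbit G x) ''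
        {x : K'.V | (∃ y z, K'.tri x y z) ∧ Finite (stabilizer G x) ∧ stabilizer G x ≠ ⊥} with hBd
      have hBfin : B.Finite := s5_finV K' _
      have hstabQ : orbit G (π q) ∈ B := by
        refine ⟨π q, ⟨hQ, ?_, ?_⟩, rfl⟩
        · rw [hstab]
          have : IsOfFinOrder g := isOfFinOrder_iff_pow_eq_one.mpr ⟨4, by norm_num, hg4⟩
          exact finite_zpowers.mpr this
        · rw [hstab]
          intro h
          rw [Subgroup.zpowers_eq_bot] at h
          apply hB.g2; rw [h]; simp
      -- good lifts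
      have hlift : ∀ x : K.V, ((∃ y z, K.tri x y z) ∧ Finite (stabilizer G x) ∧
          stabilizer G x ≠ ⊥) → ∀ l : L.R.V, L.ρ l = x → (∀ h : G, L.ρ l ≠ h • v) ∧
          (∃ y z, K'.tri (π l) y z) ∧ stabilizer G (π l) = stabilizer G x := by
        rintro x ⟨⟨y, z, hxyz⟩, hfin, hnt⟩ l rfl
        have hout : ∀ h : G, L.ρ l ≠ h • v := fun h => L.s5_fin_out hfin h
        have hst : stabilizer G l = stabilizer G (L.ρ l) := by
          ext h
          rw [mem_stabilizer_iff, mem_stabilizer_iff]
          exact L.s5_irr_orb hout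
        have hst2 : stabilizer G (π l) = stabilizer G l := by
          ext h
          rw [mem_stabilizer_iff, mem_stabilizer_iff, ← hπs]
          constructor
          · intro hh
            exact (hsing l (h • l) hout hh.symm).symm
          · intro hh; rw [hh]
        refine ⟨hout, ?_, by rw [hst2, hst]⟩
        obtain ⟨p0, p1, p2, e0, -, -, ht, -⟩ := L.lift _ _ _ hxyz
        have e0' : p0 = l := L.inj _ _ e0 (fun h => by rw [e0]; exact hout h)
        subst e0'
        obtain ⟨p, p', hpp, hne⟩ := hcon p0 hout (by rw [hst]; exact hfin) (by rw [hst]; exact hnt)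
          ⟨p1, p2, ht⟩
        refine ⟨π p, π p', (htri _ _ _).mpr ⟨?_, hne, ?_, _, _, _, hpp, rfl, rfl, rfl⟩⟩
        · intro hh; exact s5_tri_irr hpp (hsing _ _ hout hh)
        · intro hh; exact s5_tri_irr3 hpp (hsing _ _ hout hh)
      have hF : ∀ l : L.R.V, (∀ h : G, L.ρ l ≠ h • v) →
          π '' (L.ρ ⁻¹' (orbit G (L.ρ l))) = orbit G (π l) := by
        intro l hl
        ext y
        constructor
        · rintro ⟨p, ⟨h, hh⟩, rfl⟩
          have hh' : h • L.ρ l = L.ρ p := hh
          have : p = h • l := by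
            apply L.inj
            · rw [L.ρ_smul, hh']
            · intro k hk
              rw [← hh'] at hk
              apply hl (h⁻¹ * k)
              rw [mul_smul, ← hk, inv_smul_smul]
          rw [this, hπs]
          exact ⟨h, rfl⟩
        · rintro ⟨h, rfl⟩
          refine ⟨h • l, ?_, hπs h l⟩
          change L.ρ (h • l) ∈ orbit G (L.ρ l)
          rw [L.ρ_smul]
          exact ⟨h, rfl⟩
      have hle : A.ncard ≤ (B \ {orbit G (π q)}).ncard := by
        refine Set.ncard_le_ncard_of_injOn (fun O => π '' (L.ρ ⁻¹' O)) ?_ ?_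
          (hBfin.subset Set.sdiff_subset)
        · rintro O ⟨x, hx, rfl⟩
          obtain ⟨l, rfl⟩ := L.surj x
          obtain ⟨hout, htr, hst⟩ := hlift _ hx l rfl
          simp only
          rw [hF l hout]
          refine ⟨⟨π l, ⟨htr, by rw [hst]; exact hx.2.1, by rw [hst]; exact hx.2.2⟩, rfl⟩, ?_⟩
          intro h
          have h7 : orbit G (π l) = orbit G (π q) := h
          have h8 : π l ∈ orbit G (π q) := by rw [← h7]; exact mem_orbit_self _
          obtain ⟨k, hk⟩ := h8
          have hk' : k • π q = π l := hk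
          rw [← hπs] at hk'
          have h9 := hsing l (k • q) hout hk'.symm
          apply hout k
          rw [h9, L.ρ_smul, hq]
        · rintro O ⟨x, hx, rfl⟩ O' ⟨x', hx', rfl⟩ heq
          obtain ⟨l, rfl⟩ := L.surj x
          obtain ⟨l', rfl⟩ := L.surj x'
          obtain ⟨hout, -, -⟩ := hlift _ hx l rfl
          obtain ⟨hout', -, -⟩ := hlift _ hx' l' rfl
          simp only at heq ⊢
          rw [hF l hout, hF l' hout'] at heq
          have h8 : π l ∈ orbit G (π l') := by rw [← heq]; exact mem_orbit_self _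
          obtain ⟨k, hk⟩ := h8
          have hk' : k • π l' = π l := hk
          rw [← hπs] at hk'
          have h9 := hsing l (k • l') hout hk'.symm
          rw [h9, L.ρ_smul]
          exact orbit_smul k _
      have := Set.ncard_sdiff_singleton_add_one hstabQ hBfin
      omega
    omega
  obtain ⟨w', hout, hfin, hnt, ⟨p0, p0', ht0⟩, hall⟩ := hlost
  have hT : ∀ p p', L.R.tri w' p p' → ∃ m : G, w' = m • w ∧
      ((p = m • q ∧ p' = m • g • q) ∨ (p = m • g • q ∧ p' = m • q)) := by
    intro p p' hpp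
    have h6 := hall p p' hpp
    rcases hπ _ _ h6 with h9 | ⟨k, i, j, h9, h10⟩
    · exact absurd h9 (s5_tri_irr2 hpp)
    · have hnQ : ∀ n : G, w' ≠ n • q := by
        intro n hn
        apply hout n
        rw [hn, L.ρ_smul, hq]
      obtain ⟨m, hm⟩ := s5b3_dich hB (L.R.tri_rot _ _ _ hpp) h9 h10
      have hw'm : w' ∈ ({p, p', w'} : Set L.R.V) := by simp
      have hpm : p ∈ ({p, p', w'} : Set L.R.V) := by simp
      have hpm' : p' ∈ ({p, p', w'} : Set L.R.V) := by simp
      rcases hm with hm | hm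
      · exfalso
        rw [hm] at hw'm
        simp only [Set.mem_insert_iff, Set.mem_singleton_iff, ← mul_smul] at hw'm
        rcases hw'm with h | h | h
        · exact hnQ _ h
        · exact hnQ _ h
        · exact hnQ _ h
      · rw [hm] at hw'm hpm hpm'
        simp only [Set.mem_insert_iff, Set.mem_singleton_iff] at hw'm hpm hpm'
        have hw'e : w' = m • w := by
          rcases hw'm with h | h | h
          · exact absurd h (hnQ _)
          · rw [← mul_smul] at h; exact absurd h (hnQ _)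
          · exact h
        refine ⟨m, hw'e, ?_⟩
        have e1 : p ≠ m • w := by rw [← hw'e]; exact (s5_tri_irr hpp).symm
        have e2 : p' ≠ m • w := by rw [← hw'e]; exact (s5_tri_irr3 hpp).symm
        have e3 := s5_tri_irr2 hpp
        rcases hpm with h | h | h
        · rcases hpm' with h' | h' | h'
          · exact absurd (h.trans h'.symm) e3
          · exact Or.inl ⟨h, h'⟩
          · exact absurd h' e2
        · rcases hpm' with h' | h' | h'
          · exact Or.inr ⟨h, h'⟩
          · exact absurd (h.trans h'.symm) e3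
          · exact absurd h' e2
        · exact absurd h e1
  obtain ⟨n, hn, -⟩ := hT p0 p0' ht0
  have hwn : w = n⁻¹ • w' := by rw [hn, inv_smul_smul]
  refine ⟨?_, ?_, ?_, ?_⟩
  · intro h hh
    apply hout (n * h)
    rw [hn, L.ρ_smul, hh, mul_smul]
  · have h6 : stabilizer G w' = (stabilizer G w).map (MulAut.conj n).toMonoidHom := by
      rw [hn]; exact stabilizer_smul_eq_stabilizer_map_conj n w
    rw [h6] at hfin
    exact (Subgroup.equivMapOfInjective _ _ (MulAut.conj n).injective).toEquiv.finite_iff.mpr hfin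
  · intro hbot
    apply hnt
    rw [hn, stabilizer_smul_eq_stabilizer_map_conj, hbot, Subgroup.map_bot]
  · intro p p' hpp
    have h6 := L.R.smul_tri n _ _ _ hpp
    rw [← hn] at h6
    obtain ⟨m, hm1, hm2⟩ := hT _ _ h6
    refine ⟨n⁻¹ * m, ?_, ?_⟩
    · rw [mul_smul, ← hm1, ← hwn]
    · rcases hm2 with ⟨h7, h8⟩ | ⟨h7, h8⟩
      · left
        constructor
        · rw [mul_smul, ← h7, inv_smul_smul]
        · rw [mul_smul, ← h8, inv_smul_smul]
      · right
        constructor
        · rw [mul_smul, ← h7, inv_smul_smul]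
        · rw [mul_smul, ← h8, inv_smul_smul]


theorem st_S5B3 (hCON : ST_CON) : ST_S5B3 := by
  intro G _ D K v L hRed hNM q w g hB hg4
  classical
  obtain ⟨hwv, hwfin, hwnt, hF3⟩ := s5b3_w hCON D hNM hB hg4
  have hq := hB.hq
  have hg2v := s5b3_g2v hB hg4
  have hinj : ∀ a b : G, a • q = b • q → a = b := fun a b h => L.s5_inj hq h
  have hgg : g * g * (g * g) = 1 := by
    rw [← hg4]; simp only [pow_succ, pow_zero, one_mul, mul_assoc]
  have hginv : g⁻¹ = g * g * g := by
    rw [inv_eq_iff_mul_eq_one, ← hgg]; simp only [mul_assoc]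
  have hg1 : g ≠ 1 := by
    rintro rfl; exact hB.g2 (by simp)
  have hρq : ∀ k : G, L.ρ (k • q) = k • v := fun k => by rw [L.ρ_smul, hq]
  have hgv' : v ≠ g • v := fun h => hB.gv h.symm
  have hgg2v : g • v ≠ (g * g) • v := by
    rw [mul_smul]; intro h; exact hgv' (smul_left_cancel g h)
  have hinvv : g⁻¹ • v ≠ v := by
    rw [Ne, inv_smul_eq_iff]; exact hgv'
  have hinvv2 : g⁻¹ • v ≠ (g * g) • v := by
    rw [Ne, inv_smul_eq_iff]
    intro h
    have h1 : g • (g * g) • v = g⁻¹ • v := by
      rw [hginv, ← mul_smul, mul_assoc]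
    rw [h1] at h
    exact hinvv h.symm
  -- neighbours of `w`
  have hadjwq : L.R.adj w q := L.R.symm _ _ (s5_tri_adj3 hB.t2)
  have hadjwgq : L.R.adj w (g • q) := L.R.symm _ _ (s5_tri_adj2 hB.t2)
  have hwu : ∀ p p' : L.R.V, L.R.adj w p → L.R.adj w p' → L.ρ p = L.ρ p' → p = p' := by
    intro p p' hp hp' hpp
    have h1 := L.alpha w p hp (by
      intro h
      have := L.inj w p h hwv
      rw [← this] at hp
      exact L.R.irrefl _ hp) (by
      intro r hr
      obtain ⟨m, -, hm⟩ := hF3 p r hr
      have hne : m • v ≠ m • g • v := fun h => hgv' (smul_left_cancel m h)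
      rcases hm with ⟨h1, h2⟩ | ⟨h1, h2⟩
      · rw [h1, h2, hρq, L.ρ_smul, hρq]
        refine ⟨?_, fun h => hne h.symm⟩
        rw [← mul_smul]; exact fun h => hwv _ h.symm
      · rw [h1, h2, hρq, L.ρ_smul, hρq]
        exact ⟨fun h => hwv _ h.symm, hne⟩) w p' hp' rfl hpp.symm
    exact h1.2.symm
  -- K-triangles at `ρ w`
  have hxT : ∀ y y' : K.V, K.tri (L.ρ w) y y' → ∀ p : L.R.V, L.R.adj w p → L.ρ p = y →
      ∃ p', L.ρ p' = y' ∧ L.R.tri w p p' := by
    intro y y' ht p hp hpy
    obtain ⟨p0, p1, p2, e0, e1, e2, hR, -⟩ := L.lift _ _ _ ht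
    have e0' : p0 = w := (L.inj w p0 e0.symm hwv).symm
    subst e0'
    have e1' : p1 = p := hwu _ _ (L.R.tri_adj _ _ _ hR) hp (by rw [e1, hpy])
    subst e1'
    exact ⟨p2, e2, hR⟩
  have hstw : stabilizer G (L.ρ w) = stabilizer G w := by
    ext h
    rw [mem_stabilizer_iff, mem_stabilizer_iff]
    exact (L.s5_irr_orb hwv).symm
  have hR2 := (hRed.R2 (L.ρ w) (Or.inl (by rw [hstw]; exact hwfin))).1
  have hKadj : ∀ p, L.R.adj w p → K.adj (L.ρ w) (L.ρ p) := by
    intro p hp
    rcases L.adj1 w p hp with h | h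
    · have := L.inj w p h hwv
      rw [← this] at hp
      exact absurd hp (L.R.irrefl _)
    · exact h
  have hxv : K.adj (L.ρ w) v := by
    have := hKadj q hadjwq
    rwa [hq] at this
  have h8 : ∀ y, K.adj (L.ρ w) y → ∃ i : ℤ, L.R.adj w (g ^ i • q) ∧ y = g ^ i • v := by
    intro y hy
    have hr := hR2 v y hxv hy
    clear hy
    induction hr with
    | refl => exact ⟨0, by rw [zpow_zero, one_smul]; exact hadjwq, by rw [zpow_zero, one_smul]⟩
    | @tail y y' _ hst ih =>
      obtain ⟨i, hi1, hi2⟩ := ih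
      obtain ⟨p', hp1, hp2⟩ := hxT _ _ hst _ hi1 (by rw [hρq, hi2])
      obtain ⟨m, -, hm⟩ := hF3 _ _ hp2
      rcases hm with ⟨h1, h2⟩ | ⟨h1, h2⟩
      · have e := hinj _ _ h1
        subst e
        refine ⟨i + 1, ?_, ?_⟩
        · rw [zpow_add_one, mul_smul, ← h2]; exact s5_tri_adj3 hp2
        · rw [← hp1, h2, L.ρ_smul, hρq, zpow_add_one, mul_smul]
      · rw [← mul_smul] at h1
        have e := hinj _ _ h1
        have e2 : m = g ^ (i - 1) := by
          rw [zpow_sub_one, e, mul_inv_cancel_right]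
        subst e2
        refine ⟨i - 1, ?_, ?_⟩
        · rw [← h2]; exact s5_tri_adj3 hp2
        · rw [← hp1, h2, hρq]
  -- stabilizer of `w` is inside `<g>`
  have hsub : ∀ m : G, m • w = w → ∃ i : ℤ, m = g ^ i := by
    intro m hm
    have h1 : L.R.adj w (m • q) := by
      have := L.R.smul_adj m _ _ hadjwq
      rwa [hm] at this
    have h2 := hKadj _ h1
    rw [hρq] at h2
    obtain ⟨i, hi1, hi2⟩ := h8 _ h2
    refine ⟨i, hinj _ _ (hwu _ _ h1 hi1 (by rw [hρq, hρq, hi2]))⟩
  have hgw : g • w = w := by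
    by_contra hgw
    have hg'w : g⁻¹ • w ≠ w := by
      intro h
      apply hgw
      rw [inv_smul_eq_iff] at h
      exact h.symm
    -- g² fixes w
    have hg2w : (g * g) • w = w := by
      have hex : ∃ m : G, m • w = w ∧ m ≠ 1 := by
        by_contra hcon
        push Not at hcon
        apply hwnt
        rw [Subgroup.eq_bot_iff_forall]
        intro m hm
        exact hcon m (mem_stabilizer_iff.mp hm)
      obtain ⟨m, hm, hm1⟩ := hex
      obtain ⟨i, rfl⟩ := hsub m hm
      have hmod : g ^ i = g ^ (i % 4) := by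
        conv_lhs => rw [← Int.emod_add_mul_ediv i 4]
        rw [zpow_add, zpow_mul]
        have : g ^ (4 : ℤ) = 1 := by exact_mod_cast hg4
        rw [this, one_zpow, mul_one]
      rw [hmod] at hm hm1
      have h0 : 0 ≤ i % 4 := Int.emod_nonneg _ (by norm_num)
      have h4 : i % 4 < 4 := Int.emod_lt_of_pos _ (by norm_num)
      have hcases : i % 4 = 0 ∨ i % 4 = 1 ∨ i % 4 = 2 ∨ i % 4 = 3 := by omega
      rcases hcases with h | h | h | h
      · rw [h, zpow_zero] at hm1; exact absurd rfl hm1
      · rw [h, zpow_one] at hm; exact absurd hm hgw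
      · rw [h] at hm
        have : g ^ (2 : ℤ) = g * g := by rw [zpow_two]
        rwa [this] at hm
      · exfalso
        rw [h] at hm
        have e : g ^ (3 : ℤ) = g⁻¹ := by
          rw [hginv]
          have : g ^ (3 : ℤ) = g ^ (3 : ℕ) := by exact_mod_cast rfl
          rw [this]; simp only [pow_succ, pow_zero, one_mul]
        rw [e] at hm
        exact hg'w hm
    have hadj2 : K.adj (L.ρ w) ((g * g) • v) := by
      have h1 : L.R.adj w ((g * g) • q) := by
        have := L.R.smul_adj (g * g) _ _ hadjwq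
        rwa [hg2w] at this
      have := hKadj _ h1
      rwa [hρq] at this
    have hr := hR2 v _ hxv hadj2
    have hinvt : ∀ y, Relation.ReflTransGen (fun p q => K.tri (L.ρ w) p q) v y →
        y = v ∨ y = g • v := by
      intro y hy
      induction hy with
      | refl => exact Or.inl rfl
      | @tail y y' _ hst ih =>
        rcases ih with rfl | rfl
        · obtain ⟨p', hp1, hp2⟩ := hxT _ _ hst q hadjwq hq
          obtain ⟨m, hmw, hm⟩ := hF3 _ _ hp2
          rcases hm with ⟨h1, h2⟩ | ⟨h1, h2⟩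
          · right
            have e : m = 1 := hinj _ _ (by rw [← h1, one_smul])
            rw [← hp1, h2, e, one_smul, hρq]
          · exfalso
            rw [← mul_smul] at h1
            have e : m * g = 1 := hinj _ _ (by rw [← h1, one_smul])
            rw [eq_inv_of_mul_eq_one_left e] at hmw
            exact hg'w hmw
        · obtain ⟨p', hp1, hp2⟩ := hxT _ _ hst (g • q) hadjwgq (hρq g)
          obtain ⟨m, hmw, hm⟩ := hF3 _ _ hp2
          rcases hm with ⟨h1, h2⟩ | ⟨h1, h2⟩
          · exfalso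
            have e := hinj _ _ h1
            rw [← e] at hmw
            exact hgw hmw
          · left
            rw [← mul_smul] at h1
            have e := hinj _ _ h1
            have e2 : m = 1 := by
              have : m * g = 1 * g := by rw [one_mul]; exact e.symm
              exact mul_right_cancel this
            rw [← hp1, h2, e2, one_smul, hq]
    rcases hinvt _ hr with h | h
    · exact hg2v h
    · exact hgg2v h.symm
  -- triangles at `{q, g² q}`
  have hadj2 : L.R.adj q ((g * g) • q) := s5_tri_adj3 hB.t0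
  have hwor : ∀ k n : G, k • w ≠ n • q := by
    intro k n h
    apply hwv (k⁻¹ * n)
    have : w = (k⁻¹ * n) • q := by rw [mul_smul, ← h, inv_smul_smul]
    conv_lhs => rw [this]
    exact hρq _
  have h10 : ∀ r, L.R.tri q ((g * g) • q) r → r = g • q ∨ r = g⁻¹ • q := by
    intro r hr
    have hz : g ^ (2 : ℤ) = g * g := by rw [zpow_two]
    obtain ⟨m, hm⟩ := s5b3_dich hB hr (k := 1) (i := 0) (j := 2)
      (by rw [one_smul, zpow_zero, one_smul]) (by rw [one_smul, hz])
    have m1 : q ∈ ({q, (g * g) • q, r} : Set L.R.V) := by simp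
    have m2 : (g * g) • q ∈ ({q, (g * g) • q, r} : Set L.R.V) := by simp
    have m3 : r ∈ ({q, (g * g) • q, r} : Set L.R.V) := by simp
    have r1 : r ≠ q := (s5_tri_irr3 hr).symm
    have r2 : r ≠ (g * g) • q := (s5_tri_irr2 hr).symm
    rcases hm with hm | hm
    · rw [hm] at m1 m2 m3
      simp only [Set.mem_insert_iff, Set.mem_singleton_iff] at m1 m2 m3
      rcases m1 with h | h | h
      · have e : m = 1 := hinj _ _ (by rw [← h, one_smul])
        subst e
        rcases m3 with h3 | h3 | h3
        · rw [one_smul] at h3; exact absurd h3 r1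
        · rw [one_smul] at h3; exact Or.inl h3
        · rw [one_smul] at h3; exact absurd h3 r2
      · rw [← mul_smul] at h
        have e : m = g⁻¹ := eq_inv_of_mul_eq_one_left (hinj _ _ (by rw [← h, one_smul]))
        subst e
        exfalso
        rcases m2 with h3 | h3 | h3
        · have := hinj _ _ h3
          apply hB.g3; rw [this, inv_mul_cancel]
        · rw [inv_smul_smul] at h3
          exact hB.g2 (hinj _ _ (by rw [h3, one_smul]))
        · rw [← mul_smul, inv_mul_cancel_left] at h3
          have := hinj _ _ h3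
          apply hg1
          have h5 : g * g = 1 * g := by rw [one_mul]; exact this
          exact mul_right_cancel h5
      · rw [← mul_smul] at h
        have e : m = (g * g)⁻¹ := eq_inv_of_mul_eq_one_left (hinj _ _ (by rw [← h, one_smul]))
        have e2 : m = g * g := by rw [e, inv_eq_iff_mul_eq_one]; exact hgg
        rcases m3 with h3 | h3 | h3
        · rw [e2] at h3; exact absurd h3 r2
        · right
          rw [h3, e, mul_inv_rev, mul_smul, inv_smul_smul]
        · rw [e, inv_smul_smul] at h3; exact absurd h3 r1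
    · exfalso
      rw [hm] at m1 m2
      simp only [Set.mem_insert_iff, Set.mem_singleton_iff] at m1 m2
      rcases m1 with h | h | h
      · have e : m = 1 := hinj _ _ (by rw [← h, one_smul])
        subst e
        rcases m2 with h3 | h3 | h3
        · rw [one_smul] at h3
          exact hB.g2 (hinj _ _ (by rw [h3, one_smul]))
        · rw [one_smul] at h3
          have := hinj _ _ h3
          apply hg1
          have h5 : g * g = 1 * g := by rw [one_mul]; exact this
          exact mul_right_cancel h5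
        · exact hwor _ _ h3.symm
      · rw [← mul_smul] at h
        have e : m = g⁻¹ := eq_inv_of_mul_eq_one_left (hinj _ _ (by rw [← h, one_smul]))
        subst e
        rcases m2 with h3 | h3 | h3
        · have := hinj _ _ h3
          apply hB.g3; rw [this, inv_mul_cancel]
        · rw [inv_smul_smul] at h3
          exact hB.g2 (hinj _ _ (by rw [h3, one_smul]))
        · exact hwor _ _ h3.symm
      · exact hwor m 1 (by rw [one_smul]; exact h.symm)
  have hal : ∀ p' q', L.R.adj p' q' → L.ρ p' = v → L.ρ q' = (g * g) • v →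
      p' = q ∧ q' = (g * g) • q := by
    intro p' q' hadj hp' hq'
    have h1 := L.alpha q ((g * g) • q) hadj2 (by rw [hq, hρq]; exact fun h => hg2v h.symm) (by
      intro r hr
      rcases h10 r hr with rfl | rfl
      · rw [hρq, hq, hρq]; exact ⟨hB.gv, hgg2v⟩
      · rw [hρq, hq, hρq]; exact ⟨hinvv, hinvv2⟩) p' q' hadj (by rw [hp', hq]) (by rw [hq', hρq])
    exact h1
  have hK : ∀ p q r : L.R.V, L.R.tri p q r → L.ρ p ≠ L.ρ q → L.ρ q ≠ L.ρ r → L.ρ p ≠ L.ρ r →
      K.tri (L.ρ p) (L.ρ q) (L.ρ r) := by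
    intro p q r h h1 h2 h3
    rcases L.trik p q r h with h4 | ⟨h4, -⟩ | ⟨h4, -⟩ | ⟨h4, -⟩
    · exact h4
    · exact absurd h4 h1
    · exact absurd h4 h2
    · exact absurd h4 h3
  have hTK : K.tri v (g • v) ((g * g) • v) := by
    have := hK _ _ _ hB.t0 (by rw [hq, hρq]; exact hgv') (by rw [hρq, hρq]; exact hgg2v)
      (by rw [hq, hρq]; exact fun h => hg2v h.symm)
    rwa [hq, hρq, hρq] at this
  have hXK : K.tri (L.ρ w) v (g • v) := by
    have := hK _ _ _ (L.R.tri_rot _ _ _ (L.R.tri_rot _ _ _ hB.t2))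
      (by rw [hq]; exact fun h => hwv 1 (by rw [one_smul]; exact h))
      (by rw [hq, hρq]; exact hgv') (by rw [hρq]; exact hwv g)
    rwa [hq, hρq] at this
  obtain ⟨K', hK'⟩ := s5b3_removal K v (L.ρ w) g hg4 hTK (by
    intro y hy
    obtain ⟨p0, p1, p2, e0, e1, e2, hR, -⟩ := L.lift _ _ _ hy
    obtain ⟨f0, f1⟩ := hal _ _ (L.R.tri_adj _ _ _ hR) e0 e1
    subst f0
    subst f1
    rcases h10 _ hR with h | h
    · left; rw [← e2, h, hρq]
    · right; rw [← e2, h, hρq]) (by
    intro h h1 h2
    have h3 := L.R.smul_adj h _ _ hadj2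
    obtain ⟨f0, -⟩ := hal _ _ h3 (by rw [hρq, h1]) (by rw [L.ρ_smul, hρq, h2])
    exact L.free q hq h f0) hXK (by rw [← L.ρ_smul, hgw]) hwv
  have := hNM.1 K'
  omega

end Pool.Agent.Helper93.HZ
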