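import Pool.Agent.Helper93.HZ.Blow

/-!
# HZ: common lemmas for the modules S5B0, S5B1, S5B2, S5B3, S5C (lonely blow-up, section 8)
-/

set_option autoImplicit false

open MulAction Pointwise

namespace Pool.Agent.Helper93.HZ

variable {G : Type} [Group G]

theorem s5_tri_irr {K : Cx G} {x y z : K.V} (h : K.tri x y z) : x ≠ y := by
  rintro rfl
  exact K.irrefl _ (K.tri_adj _ _ _ h)

theorem s5_tri_irr2 {K : Cx G} {x y z : K.V} (h : K.tri x y z) : y ≠ z :=
  s5_tri_irr (K.tri_rot _ _ _ h)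

theorem s5_tri_irr3 {K : Cx G} {x y z : K.V} (h : K.tri x y z) : x ≠ z :=
  (s5_tri_irr (K.tri_rot _ _ _ (K.tri_rot _ _ _ h))).symm

theorem s5_tri_swap23 {K : Cx G} {x y z : K.V} (h : K.tri x y z) : K.tri x z y :=
  K.tri_rot _ _ _ (K.tri_rot _ _ _ (K.tri_swap _ _ _ (K.tri_rot _ _ _ (K.tri_rot _ _ _
    (K.tri_rot _ _ _ (K.tri_swap _ _ _ (K.tri_rot _ _ _ (K.tri_rot _ _ _ (K.tri_swap _ _ _ h)))))))))

theorem s5_tri_adj2 {K : Cx G} {x y z : K.V} (h : K.tri x y z) : K.adj y z :=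
  K.tri_adj _ _ _ (K.tri_rot _ _ _ h)

theorem s5_tri_adj3 {K : Cx G} {x y z : K.V} (h : K.tri x y z) : K.adj x z :=
  K.tri_adj _ _ _ (s5_tri_swap23 h)

/-- orbits of a set of subsets that is contained in another one minus an orbit -/
theorem s5_oc_lt {α : Type} [MulAction G α] {S S' : Set α} (hS : FinOrb G S) (hsub : S' ⊆ S)
    {s : α} (hs : s ∈ S) (hn : ∀ g : G, g • s ∉ S') :
    oc G S' + 1 ≤ oc G S := by
  unfold oc
  have h1 : (fun x : α => orbit G x) '' S' ⊆ ((fun x : α => orbit G x) '' S) \ {orbit G s} := by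
    rintro o ⟨a, ha, rfl⟩
    refine ⟨⟨a, hsub ha, rfl⟩, ?_⟩
    intro h
    have h2 : a ∈ orbit G s := by
      have : orbit G a = orbit G s := h
      rw [← this]; exact mem_orbit_self a
    obtain ⟨g, hg⟩ := h2
    have hg' : g • s = a := hg
    exact hn g (by rw [hg']; exact ha)
  have hfin : ((fun x : α => orbit G x) '' S).Finite := hS
  have h2 := Set.ncard_le_ncard h1 (hfin.subset Set.sdiff_subset)
  have h3 : ((fun x : α => orbit G x) '' S \ {orbit G s}).ncard + 1 =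
      ((fun x : α => orbit G x) '' S).ncard :=
    Set.ncard_sdiff_singleton_add_one ⟨s, hs, rfl⟩ hfin
  omega

theorem s5_finorb_mono {α : Type} [MulAction G α] {S S' : Set α} (hS : FinOrb G S)
    (hsub : S' ⊆ S) : FinOrb G S' := by
  unfold FinOrb at *
  exact hS.subset (Set.image_mono hsub)

namespace LB

variable {K : Cx G} {v : K.V} (L : LB K v)

theorem s5_smul_mem {p : L.R.V} {m : G} (hp : L.ρ p = m • v) : L.ρ (m⁻¹ • p) = v := by
  rw [L.ρ_smul, hp, inv_smul_smul]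

theorem s5_free {p : L.R.V} {m : G} (hp : L.ρ p = m • v) {h : G} (hh : h • p = p) : h = 1 := by
  have h1 : (m⁻¹ * h * m) • (m⁻¹ • p) = m⁻¹ • p := by
    rw [mul_smul, smul_inv_smul, mul_smul, hh]
  have h2 := L.free _ (L.s5_smul_mem hp) _ h1
  have h3 : h = m * (m⁻¹ * h * m) * m⁻¹ := by group
  rw [h3, h2]; group

theorem s5_orb {q p : L.R.V} (hq : L.ρ q = v) {m : G} (hp : L.ρ p = m • v) :
    ∃ n : G, p = n • q := by
  obtain ⟨i, hi⟩ := L.fib q (m⁻¹ • p) hq (L.s5_smul_mem hp)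
  refine ⟨m * L.z ^ i, ?_⟩
  rw [mul_smul, ← hi, smul_inv_smul]

theorem s5_inj {q : L.R.V} (hq : L.ρ q = v) {m n : G} (h : m • q = n • q) : m = n := by
  have h1 : (n⁻¹ * m) • q = q := by rw [mul_smul, h, inv_smul_smul]
  have h2 := L.free q hq _ h1
  exact (inv_mul_eq_one.mp h2).symm

include L in
theorem s5_tf {h : G} (hv : h • v = v) {n : ℕ} (hn : 0 < n) (hh : h ^ n = 1) : h = 1 := by
  have h1 : h ∈ stabilizer G v := mem_stabilizer_iff.mpr hv
  rw [L.zstab, Subgroup.mem_zpowers_iff] at h1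
  obtain ⟨i, rfl⟩ := h1
  have h2 : L.z ^ (i * n) = L.z ^ (0 : ℤ) := by
    rw [zpow_mul, zpow_natCast, hh, zpow_zero]
  have h3 := injective_zpow_iff_not_isOfFinOrder.mpr L.zinf h2
  have h4 : i = 0 := by
    rcases mul_eq_zero.mp h3 with h5 | h5
    · exact h5
    · exfalso; have : n = 0 := by exact_mod_cast h5
      omega
  rw [h4, zpow_zero]

include L in
theorem s5_not_fin : ¬ Finite (stabilizer G v) := by
  rw [L.zstab]
  intro h
  exact L.zinf (finite_zpowers.mp (Set.toFinite _))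

theorem s5_irr_orb {p : L.R.V} (hp : ∀ g : G, L.ρ p ≠ g • v) {h : G} :
    h • p = p ↔ h • L.ρ p = L.ρ p := by
  constructor
  · intro hh
    rw [← L.ρ_smul, hh]
  · intro hh
    apply L.inj
    · rw [L.ρ_smul, hh]
    · intro g hg
      apply hp g
      rw [← hg, L.ρ_smul, hh]

end LB


theorem s5_smul_triple {α : Type} [MulAction G α] (k : G) (a b c : α) :
    k • ({a, b, c} : Set α) = {k • a, k • b, k • c} := by
  rw [Set.smul_set_insert, Set.smul_set_insert, Set.smul_set_singleton]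

/-- two different orbits -/
theorem s5_oc_ge2 {α : Type} [MulAction G α] {S : Set α} (hS : FinOrb G S) {s s' : α}
    (hs : s ∈ S) (hs' : s' ∈ S) (hne : ∀ g : G, s' ≠ g • s) : 2 ≤ oc G S := by
  unfold oc
  have h1 : ({orbit G s, orbit G s'} : Set (Set α)) ⊆ (fun x : α => orbit G x) '' S := by
    rintro o (rfl | rfl)
    · exact ⟨s, hs, rfl⟩
    · exact ⟨s', hs', rfl⟩
  have h2 := Set.ncard_le_ncard h1 hS
  have h3 : orbit G s ≠ orbit G s' := by
    intro h
    have h4 : s' ∈ orbit G s := by rw [h]; exact mem_orbit_self s'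
    obtain ⟨g, hg⟩ := h4
    exact hne g hg.symm
  rw [Set.ncard_pair h3] at h2
  exact h2

/-- at most one orbit -/
theorem s5_oc_le1 {α : Type} [MulAction G α] {S : Set α} {s : α}
    (h : ∀ a ∈ S, ∃ m : G, a = m • s) : oc G S ≤ 1 := by
  unfold oc
  have h1 : (fun x : α => orbit G x) '' S ⊆ {orbit G s} := by
    rintro o ⟨a, ha, rfl⟩
    obtain ⟨m, rfl⟩ := h a ha
    exact orbit_smul m s
  have h2 := Set.ncard_le_ncard h1 (Set.finite_singleton _)
  rwa [Set.ncard_singleton] at h2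

/-- finitely many orbits of vertices -/
theorem s5_finV (K : Cx G) (S : Set K.V) : FinOrb G S := by
  unfold FinOrb
  have h1 : (fun x : K.V => orbit G x) '' S ⊆ (fun O : Set (K.V × K.V) => Prod.fst '' O) ''
      ((fun p : K.V × K.V => orbit G p) '' {p : K.V × K.V | K.adj p.1 p.2}) := by
    rintro o ⟨x, -, rfl⟩
    obtain ⟨y, hy⟩ := K.nbr x
    refine ⟨orbit G (x, y), ⟨(x, y), hy, rfl⟩, ?_⟩
    ext a
    constructor
    · rintro ⟨p, ⟨g, rfl⟩, rfl⟩
      exact ⟨g, rfl⟩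
    · rintro ⟨g, rfl⟩
      exact ⟨g • (x, y), ⟨g, rfl⟩, rfl⟩
  exact (K.finE.image _).subset h1

namespace LB

variable {K : Cx G} {v : K.V} (L : LB K v)

include L in
/-- finite stabilizer implies outside the orbit of `v` -/
theorem s5_fin_out {x : K.V} (hx : Finite (stabilizer G x)) (h : G) : x ≠ h • v := by
  rintro rfl
  have h1 : h * L.z * h⁻¹ ∈ stabilizer G (h • v) := by
    rw [mem_stabilizer_iff, mul_smul, mul_smul, inv_smul_smul]
    have h2 : L.z ∈ stabilizer G v := by rw [L.zstab]; exact Subgroup.mem_zpowers _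
    rw [mem_stabilizer_iff.mp h2]
  have h3 : IsOfFinOrder (⟨h * L.z * h⁻¹, h1⟩ : stabilizer G (h • v)) := isOfFinOrder_of_finite _
  have h4 : IsOfFinOrder (h * L.z * h⁻¹) := by
    rw [isOfFinOrder_iff_pow_eq_one] at h3 ⊢
    obtain ⟨n, hn, hh⟩ := h3
    refine ⟨n, hn, ?_⟩
    have := congrArg Subtype.val hh
    simpa using this
  apply L.zinf
  rw [isOfFinOrder_iff_pow_eq_one] at h4 ⊢
  obtain ⟨n, hn, hh⟩ := h4
  refine ⟨n, hn, ?_⟩
  rw [conj_pow] at hh
  have h5 : L.z ^ n = h⁻¹ * (h * L.z ^ n * h⁻¹) * h := by group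
  rw [h5, hh]; group

end LB


/-- contraction of the edge `{q, g q}` of the lonely blow-up -/
theorem s5_con (hCON : ST_CON) (D : Setup G) {K : Cx G} {v : K.V} (L : LB K v) {q : L.R.V} {g : G}
    (hq : L.ρ q = v) (hadj : L.R.adj q (g • q)) :
    ∃ (K' : Cx G) (π : L.R.V → K'.V), Function.Surjective π ∧
      (∀ (k : G) x, π (k • x) = k • π x) ∧
      (∀ x x', π x = π x' → x = x' ∨ ∃ k : G, ∃ i j : ℤ, k • x = g ^ i • q ∧ k • x' = g ^ j • q) ∧
      (∀ i j : ℤ, π (g ^ i • q) = π (g ^ j • q)) ∧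
      (∀ p q r, K'.tri p q r ↔ p ≠ q ∧ q ≠ r ∧ p ≠ r ∧
        ∃ x y z, L.R.tri x y z ∧ π x = p ∧ π y = q ∧ π z = r) ∧
      stabilizer G (π q) = Subgroup.zpowers g ∧
      rr K' + oc G {s : Set L.R.V | ∃ x y z, L.R.tri x y z ∧ π x = π y ∧ s = {x, y, z}} ≤ rr L.R := by
  have hbot : stabilizer G q = ⊥ := by
    rw [Subgroup.eq_bot_iff_forall]
    intro h hh
    exact L.free q hq h (mem_stabilizer_iff.mp hh)
  obtain ⟨K', π, h1, h2, h3, h4, h5, h6, h7⟩ := hCON G D L.R q (g • q) (Subgroup.zpowers g) hadj hbot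
    (Or.inr ⟨g, rfl, rfl⟩)
  have hform : ∀ (k : G) (x : L.R.V), (k • x = g • q ∨ ∃ h ∈ Subgroup.zpowers g, k • x = h • q) →
      ∃ i : ℤ, k • x = g ^ i • q := by
    rintro k x (h | ⟨h, hh, h'⟩)
    · exact ⟨1, by rw [h, zpow_one]⟩
    · obtain ⟨i, rfl⟩ := Subgroup.mem_zpowers_iff.mp hh
      exact ⟨i, h'⟩
  refine ⟨K', π, h1, h3, ?_, ?_, h5, h6, h7⟩
  · intro x x' hxx
    rcases (h2 x x').mp hxx with h | ⟨k, ha, hb⟩
    · exact Or.inl h
    · right
      obtain ⟨i, hi⟩ := hform k x ha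
      obtain ⟨j, hj⟩ := hform k x' hb
      exact ⟨k, i, j, hi, hj⟩
  · intro i j
    rw [h2]
    right
    refine ⟨1, Or.inr ⟨g ^ i, Subgroup.zpow_mem_zpowers g i, one_smul _ _⟩,
      Or.inr ⟨g ^ j, Subgroup.zpow_mem_zpowers g j, one_smul _ _⟩⟩

end Pool.Agent.Helper93.HZ
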