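import Pool.Agent.Helper12.HZ.S5Base

/-!
# HZ: module S5C
-/

set_option autoImplicit false

open MulAction Pointwise

namespace Pool.Agent.Helper93.HZ

variable {G : Type} [Group G]

/-- transfer of orbit counts along an injective equivariant map -/
theorem s5c_transfer {α β : Type} [MulAction G α] [MulAction G β] (φ : α → β)
    (hφ : Function.Injective φ) (he : ∀ (g : G) a, φ (g • a) = g • φ a) {S : Set α} {T : Set β}
    (hST : ∀ a ∈ S, φ a ∈ T) (hT : FinOrb G T) : FinOrb G S ∧ oc G S ≤ oc G T := by
  have horb : ∀ a : α, φ '' (orbit G a) = orbit G (φ a) := by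
    intro a
    ext b
    constructor
    · rintro ⟨_, ⟨g, rfl⟩, rfl⟩
      exact ⟨g, (he g a).symm⟩
    · rintro ⟨g, rfl⟩
      exact ⟨g • a, ⟨g, rfl⟩, he g a⟩
  have hmaps : ∀ O ∈ (fun x : α => orbit G x) '' S, φ '' O ∈ (fun x : β => orbit G x) '' T := by
    rintro O ⟨a, ha, rfl⟩
    exact ⟨φ a, hST a ha, (horb a).symm⟩
  have hinj : Function.Injective (fun O : Set α => φ '' O) := Set.image_injective.mpr hφ
  have hT' : ((fun x : β => orbit G x) '' T).Finite := hT
  constructor
  · unfold FinOrb
    exact Set.Finite.of_finite_image (hT'.subset (by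
      rintro _ ⟨O, hO, rfl⟩
      exact hmaps O hO)) (hinj.injOn)
  · unfold oc
    exact Set.ncard_le_ncard_of_injOn _ hmaps hinj.injOn hT'

/-- removal of the orbit of a vertex lying in exactly one triangle -/
theorem s5c_removal (K : Cx G) (x y y' : K.V) (hT : K.tri x y y')
    (hN : ∀ z, K.adj x z → z = y ∨ z = y') (hy : ∀ h : G, y ≠ h • x) (hy' : ∀ h : G, y' ≠ h • x) :
    ∃ K' : Cx G, rr K' < rr K := by
  classical
  let W := {a : K.V // ∀ h : G, a ≠ h • x}
  have hWs : ∀ (g : G) (a : K.V), (∀ h : G, a ≠ h • x) → ∀ h : G, g • a ≠ h • x := by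
    intro g a ha h hh
    apply ha (g⁻¹ * h)
    rw [mul_smul, ← hh, inv_smul_smul]
  let actW : MulAction G W :=
    { smul := fun g a => ⟨g • a.1, hWs g a.1 a.2⟩
      one_smul := fun a => Subtype.ext (one_smul G a.1)
      mul_smul := fun g h a => Subtype.ext (mul_smul g h a.1) }
  have hval : ∀ (g : G) (a : W), ((g • a : W) : K.V) = g • (a : K.V) := fun g a => rfl
  -- neighbours of a removed vertex
  have hNx : ∀ (h : G) (z : K.V), K.adj (h • x) z → z = h • y ∨ z = h • y' := by
    intro h z hz
    have h1 := K.smul_adj h⁻¹ _ _ hz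
    rw [inv_smul_smul] at h1
    rcases hN _ h1 with h2 | h2
    · left; rw [← h2, smul_inv_smul]
    · right; rw [← h2, smul_inv_smul]
  have hyy : K.adj y y' := s5_tri_adj2 hT
  have hadjW : ∀ h : G, K.adj (h • y) (h • y') := fun h => K.smul_adj h _ _ hyy
  have hyW : ∀ (h k : G), h • y ≠ k • x := fun h k => hWs h y hy k
  have hyW' : ∀ (h k : G), h • y' ≠ k • x := fun h k => hWs h y' hy' k
  set adj' : W → W → Prop := fun a b => K.adj a.1 b.1 with hadj'
  set tri' : W → W → W → Prop := fun a b c => K.tri a.1 b.1 c.1 with htri'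
  -- retraction
  have hr : ∃ r : K.V → W, (∀ a : W, r a.1 = a) ∧
      ∀ h : G, (r (h • x) : K.V) = h • y ∨ (r (h • x) : K.V) = h • y' := by
    have hex : ∀ a : K.V, ∃ w : W, (∀ b : W, a = b.1 → w = b) ∧
        ∀ h : G, a = h • x → (w : K.V) = h • y ∨ (w : K.V) = h • y' := by
      intro a
      by_cases ha : ∀ h : G, a ≠ h • x
      · exact ⟨⟨a, ha⟩, fun b hb => Subtype.ext hb, fun h hh => absurd hh (ha h)⟩
      · push Not at ha
        obtain ⟨h, hh⟩ := ha
        refine ⟨⟨h • y, fun k => hyW h k⟩, fun b hb => absurd (hb.symm.trans hh) (b.2 h), ?_⟩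
        intro k hk
        have h1 : K.adj (k • x) (h • y) := by
          rw [← hk, hh]
          exact K.smul_adj h _ _ (K.tri_adj _ _ _ hT)
        exact hNx k _ h1
    choose r hr1 hr2 using hex
    exact ⟨r, fun a => hr1 a.1 a rfl, fun h => hr2 _ h rfl⟩
  obtain ⟨r, hr1, hr2⟩ := hr
  have hradj : ∀ a b : K.V, K.adj a b → r a = r b ∨ adj' (r a) (r b) := by
    intro a b hab
    by_cases ha : ∀ h : G, a ≠ h • x
    · by_cases hb : ∀ h : G, b ≠ h • x
      · right
        have e1 := hr1 ⟨a, ha⟩
        have e2 := hr1 ⟨b, hb⟩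
        simp only at e1 e2
        rw [e1, e2]; exact hab
      · push Not at hb
        obtain ⟨h, rfl⟩ := hb
        have e1 := hr1 ⟨a, ha⟩
        simp only at e1
        have h1 := hNx h a (K.symm _ _ hab)
        rw [e1]
        rcases h1 with h1 | h1 <;> rcases hr2 h with h2 | h2
        · left; apply Subtype.ext; rw [h2]; exact h1
        · right; change K.adj a _; rw [h2, h1]; exact hadjW h
        · right; change K.adj a _; rw [h2, h1]; exact K.symm _ _ (hadjW h)
        · left; apply Subtype.ext; rw [h2]; exact h1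
    · push Not at ha
      obtain ⟨h, rfl⟩ := ha
      have h1 := hNx h b hab
      have hb : ∀ k : G, b ≠ k • x := by
        rcases h1 with rfl | rfl
        · exact hyW h
        · exact hyW' h
      have e2 := hr1 ⟨b, hb⟩
      simp only at e2
      rw [e2]
      rcases h1 with h1 | h1 <;> rcases hr2 h with h2 | h2
      · left; apply Subtype.ext; rw [h2]; exact h1.symm
      · right; change K.adj _ b; rw [h2, h1]; exact K.symm _ _ (hadjW h)
      · right; change K.adj _ b; rw [h2, h1]; exact hadjW h
      · left; apply Subtype.ext; rw [h2]; exact h1.symm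
  have hsc : SC adj' tri' := by
    intro H _ c hc1 hc2
    set c' : K.V → K.V → H := fun a b => if r a = r b then 1 else c (r a) (r b) with hc'
    have hcinv : ∀ a b : K.V, K.adj a b → c' a b * c' b a = 1 := by
      intro a b hab
      simp only [hc']
      by_cases h : r a = r b
      · rw [if_pos h, if_pos h.symm, one_mul]
      · rw [if_neg h, if_neg (fun hh => h hh.symm)]
        rcases hradj a b hab with h1 | h1
        · exact absurd h1 h
        · exact hc1 _ _ h1
    have hrot : ∀ p q r : H, p * q * r = 1 → q * r * p = 1 := by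
      intro p q r h
      have h2 : q * r * p = p⁻¹ * (p * q * r) * p := by group
      rw [h2, h]; group
    -- first vertex removed
    have hkey : ∀ a b d : K.V, K.tri a b d → (∃ h : G, a = h • x) → c' a b * c' b d * c' d a = 1 := by
      rintro a b d ht ⟨h, rfl⟩
      have hb := hNx h b (K.tri_adj _ _ _ ht)
      have hd := hNx h d (s5_tri_adj3 ht)
      have hbd : b ≠ d := s5_tri_irr2 ht
      have hbW : ∀ k : G, b ≠ k • x := by
        rcases hb with rfl | rfl
        · exact hyW h
        · exact hyW' h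
      have hdW : ∀ k : G, d ≠ k • x := by
        rcases hd with rfl | rfl
        · exact hyW h
        · exact hyW' h
      have eb := hr1 ⟨b, hbW⟩
      have ed := hr1 ⟨d, hdW⟩
      simp only at eb ed
      have hra : r (h • x) = r b ∨ r (h • x) = r d := by
        rw [eb, ed]
        rcases hr2 h with h2 | h2
        · rcases hb with hb | hb
          · left; apply Subtype.ext; rw [h2]; exact hb.symm
          · rcases hd with hd | hd
            · right; apply Subtype.ext; rw [h2]; exact hd.symm
            · exact absurd (hb.trans hd.symm) hbd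
        · rcases hb with hb | hb
          · rcases hd with hd | hd
            · exact absurd (hb.trans hd.symm) hbd
            · right; apply Subtype.ext; rw [h2]; exact hd.symm
          · left; apply Subtype.ext; rw [h2]; exact hb.symm
      have h3 := hcinv b d (s5_tri_adj2 ht)
      rcases hra with h2 | h2
      · have e1 : c' (h • x) b = 1 := by simp only [hc', if_pos h2]
        have e2 : c' d (h • x) = c' d b := by simp only [hc', h2]
        rw [e1, e2, one_mul]
        exact h3
      · have e1 : c' d (h • x) = 1 := by simp only [hc', if_pos h2.symm]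
        have e2 : c' (h • x) b = c' d b := by simp only [hc', h2]
        rw [e1, e2, mul_one]
        exact hcinv d b (K.symm _ _ (s5_tri_adj2 ht))
    obtain ⟨f, hf⟩ := K.sc H c' hcinv (by
      intro a b d ht
      by_cases h1 : ∃ h : G, a = h • x
      · exact hkey a b d ht h1
      by_cases h2 : ∃ h : G, b = h • x
      · have := hkey b d a (K.tri_rot _ _ _ ht) h2
        exact hrot _ _ _ (hrot _ _ _ this)
      by_cases h3 : ∃ h : G, d = h • x
      · have := hkey d a b (K.tri_rot _ _ _ (K.tri_rot _ _ _ ht)) h3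
        exact hrot _ _ _ this
      push Not at h1 h2 h3
      have e1 := hr1 ⟨a, h1⟩
      have e2 := hr1 ⟨b, h2⟩
      have e3 := hr1 ⟨d, h3⟩
      simp only at e1 e2 e3
      simp only [hc', e1, e2, e3]
      rw [if_neg (fun hh => s5_tri_irr ht (congrArg Subtype.val hh)),
        if_neg (fun hh => s5_tri_irr2 ht (congrArg Subtype.val hh)),
        if_neg (fun hh => s5_tri_irr3 ht (congrArg Subtype.val hh).symm)]
      exact hc2 ⟨a, h1⟩ ⟨b, h2⟩ ⟨d, h3⟩ ht)
    refine ⟨fun a => f a.1, ?_⟩
    intro a b hab
    have h1 := hf a.1 b.1 hab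
    simp only [hc', hr1] at h1
    rw [if_neg] at h1
    · exact h1
    · rintro rfl
      exact K.irrefl _ hab
  have hconn : ∀ a b : W, Relation.ReflTransGen adj' a b := by
    intro a b
    have key : ∀ c : K.V, Relation.ReflTransGen K.adj a.1 c →
        Relation.ReflTransGen adj' a (r c) := by
      intro c hc
      induction hc with
      | refl => rw [hr1]
      | @tail c d _ hcd ih =>
        rcases hradj c d hcd with h | h
        · rw [← h]; exact ih
        · exact ih.tail h
    have := key b.1 (K.conn a.1 b.1)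
    rwa [hr1] at this
  let K' : Cx G :=
    { V := W
      act := actW
      adj := adj'
      tri := tri'
      ne := ⟨⟨y, hy⟩⟩
      symm := fun a b h => K.symm _ _ h
      irrefl := fun a h => K.irrefl a.1 h
      nbr := by
        intro a
        obtain ⟨b, hb⟩ := K.nbr a.1
        by_cases hbW : ∀ h : G, b ≠ h • x
        · exact ⟨⟨b, hbW⟩, hb⟩
        · push Not at hbW
          obtain ⟨h, rfl⟩ := hbW
          rcases hNx h a.1 (K.symm _ _ hb) with h1 | h1
          · refine ⟨⟨h • y', hyW' h⟩, ?_⟩
            change K.adj a.1 (h • y')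
            rw [h1]; exact hadjW h
          · refine ⟨⟨h • y, hyW h⟩, ?_⟩
            change K.adj a.1 (h • y)
            rw [h1]; exact K.symm _ _ (hadjW h)
      tri_adj := fun a b d h => K.tri_adj _ _ _ h
      tri_rot := fun a b d h => K.tri_rot _ _ _ h
      tri_swap := fun a b d h => K.tri_swap _ _ _ h
      smul_adj := fun k a b h => K.smul_adj k _ _ h
      smul_tri := fun k a b d h => K.smul_tri k _ _ _ h
      conn := hconn
      sc := hsc
      finE := by
        refine (s5c_transfer (G := G) (fun p : W × W => ((p.1 : K.V), (p.2 : K.V))) ?_ ?_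
          (T := {p : K.V × K.V | K.adj p.1 p.2}) ?_ K.finE).1
        · rintro ⟨a, b⟩ ⟨c, d⟩ h
          simp only [Prod.mk.injEq] at h
          exact Prod.ext (Subtype.ext h.1) (Subtype.ext h.2)
        · intro g a; rfl
        · intro a ha; exact ha
      finT := by
        refine (s5c_transfer (G := G) (fun s : Set W => (Subtype.val '' s : Set K.V)) ?_ ?_
          (T := {s : Set K.V | ∃ x y z, K.tri x y z ∧ s = {x, y, z}}) ?_ K.finT).1
        · exact Set.image_injective.mpr Subtype.val_injective
        · intro g s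
          ext b
          constructor
          · rintro ⟨_, ⟨a, ha, rfl⟩, rfl⟩
            exact ⟨a.1, ⟨a, ha, rfl⟩, rfl⟩
          · rintro ⟨_, ⟨a, ha, rfl⟩, rfl⟩
            exact ⟨g • a, ⟨a, ha, rfl⟩, rfl⟩
        · rintro s ⟨a, b, d, h, rfl⟩
          refine ⟨a.1, b.1, d.1, h, ?_⟩
          simp only [Set.image_insert_eq, Set.image_singleton]
      stab := by
        intro a
        have h1 : stabilizer G a = stabilizer G a.1 := by
          ext h
          rw [mem_stabilizer_iff, mem_stabilizer_iff]
          constructor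
          · intro hh; exact congrArg Subtype.val hh
          · intro hh; exact Subtype.ext hh
        rw [h1]
        exact K.stab a.1 }
  refine ⟨K', ?_⟩
  set T' : Set (Set K.V) := {s | ∃ a b d, K.tri a b d ∧ s = {a, b, d} ∧
    (∀ h : G, a ≠ h • x) ∧ (∀ h : G, b ≠ h • x) ∧ (∀ h : G, d ≠ h • x)} with hT'
  have h1 : oc G T' + 1 ≤ rr K := by
    refine s5_oc_lt (s := ({x, y, y'} : Set K.V)) K.finT ?_ ?_ ?_
    · rintro s ⟨a, b, d, h, hs, -⟩
      exact ⟨a, b, d, h, hs⟩
    · exact ⟨_, _, _, hT, rfl⟩
    · rintro h ⟨a, b, d, ht, hs, ha, hb, hd⟩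
      have m1 : h • x ∈ ({a, b, d} : Set K.V) := by
        rw [← hs]
        exact Set.smul_mem_smul_set (by simp)
      rcases m1 with m1 | m1 | m1
      · exact ha h m1.symm
      · exact hb h m1.symm
      · exact hd h (Set.mem_singleton_iff.mp m1).symm
  have hT'fin : FinOrb G T' := by
    refine s5_finorb_mono K.finT ?_
    rintro s ⟨a, b, d, h, hs, -⟩
    exact ⟨a, b, d, h, hs⟩
  have h2 : rr K' ≤ oc G T' := by
    refine (s5c_transfer (G := G) (fun s : Set W => (Subtype.val '' s : Set K.V)) ?_ ?_
      (T := T') ?_ hT'fin).2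
    · exact Set.image_injective.mpr Subtype.val_injective
    · intro g s
      ext b
      constructor
      · rintro ⟨_, ⟨a, ha, rfl⟩, rfl⟩
        exact ⟨a.1, ⟨a, ha, rfl⟩, rfl⟩
      · rintro ⟨_, ⟨a, ha, rfl⟩, rfl⟩
        exact ⟨g • a, ⟨a, ha, rfl⟩, rfl⟩
    · rintro s ⟨a, b, d, h, rfl⟩
      refine ⟨a.1, b.1, d.1, h, ?_, a.2, b.2, d.2⟩
      simp only [Set.image_insert_eq, Set.image_singleton]
  omega


/-- if the class `Q` lies in a triangle of the contraction and `nn` does not grow, some vertex with
finite nontrivial stabilizer loses all its triangles -/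
theorem s5c_lost {K : Cx G} {v : K.V} {L : LB K v} {q : L.R.V} (hq : L.ρ q = v) (g : G)
    {K' : Cx G} {π : L.R.V → K'.V}
    (hπs : ∀ (k : G) x, π (k • x) = k • π x)
    (hπ : ∀ x x', π x = π x' → x = x' ∨ ∃ k : G, ∃ i j : ℤ, k • x = g ^ i • q ∧ k • x' = g ^ j • q)
    (htri : ∀ p q r, K'.tri p q r ↔ p ≠ q ∧ q ≠ r ∧ p ≠ r ∧
        ∃ x y z, L.R.tri x y z ∧ π x = p ∧ π y = q ∧ π z = r)
    (hfinQ : Finite (stabilizer G (π q))) (hntQ : stabilizer G (π q) ≠ ⊥)
    (hQ : ∃ y z, K'.tri (π q) y z) (hnn : nn K' ≤ nn K) :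
    ∃ w' : L.R.V, (∀ h : G, L.ρ w' ≠ h • v) ∧ Finite (stabilizer G w') ∧
      stabilizer G w' ≠ ⊥ ∧ (∃ p p', L.R.tri w' p p') ∧ ∀ p p', L.R.tri w' p p' → π p = π p' := by
  classical
  have hρorb : ∀ (k : G) (i : ℤ) (p : L.R.V), k • p = g ^ i • q → L.ρ p = (k⁻¹ * g ^ i) • v := by
    intro k i p h
    have : p = (k⁻¹ * g ^ i) • q := by rw [mul_smul, ← h, inv_smul_smul]
    rw [this, L.ρ_smul, hq]
  have hsing : ∀ p p' : L.R.V, (∀ h : G, L.ρ p ≠ h • v) → π p = π p' → p = p' := by
    intro p p' hp h
    rcases hπ p p' h with h1 | ⟨k, i, j, h1, h2⟩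
    · exact h1
    · exact absurd (hρorb k i p h1) (hp _)
  by_contra hcon
  push Not at hcon
  have hcount : nn K + 1 ≤ nn K' := by
    unfold nn oc
    set A : Set (Set K.V) := (fun x : K.V => orbit G x) ''
      {x : K.V | (∃ y z, K.tri x y z) ∧ Finite (stabilizer G x) ∧ stabilizer G x ≠ ⊥} with hA
    set B : Set (Set K'.V) := (fun x : K'.V => orbit G x) ''
      {x : K'.V | (∃ y z, K'.tri x y z) ∧ Finite (stabilizer G x) ∧ stabilizer G x ≠ ⊥} with hBd
    have hBfin : B.Finite := s5_finV K' _
    have hstabQ : orbit G (π q) ∈ B := ⟨π q, ⟨hQ, hfinQ, hntQ⟩, rfl⟩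
    -- good lifts
    have hlift : ∀ x : K.V, ((∃ y z, K.tri x y z) ∧ Finite (stabilizer G x) ∧
        stabilizer G x ≠ ⊥) → ∀ l : L.R.V, L.ρ l = x → (∀ h : G, L.ρ l ≠ h • v) ∧
        (∃ y z, K'.tri (π l) y z) ∧ stabilizer G (π l) = stabilizer G x := by
      rintro x ⟨⟨y, z, hxyz⟩, hfin, hnt⟩ l rfl
      have hout : ∀ h : G, L.ρ l ≠ h • v := fun h => L.s5_fin_out hfin h
      have hst : stabilizer G l = stabilizer G (L.ρ l) := by
        ext h
        rw [mem_stabilizer_iff, mem_stabilizer_iff]
        exact L.s5_irr_orb hout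
      have hst2 : stabilizer G (π l) = stabilizer G l := by
        ext h
        rw [mem_stabilizer_iff, mem_stabilizer_iff, ← hπs]
        constructor
        · intro hh
          exact (hsing l (h • l) hout hh.symm).symm
        · intro hh; rw [hh]
      refine ⟨hout, ?_, by rw [hst2, hst]⟩
      obtain ⟨p0, p1, p2, e0, -, -, ht, -⟩ := L.lift _ _ _ hxyz
      have e0' : p0 = l := L.inj _ _ e0 (fun h => by rw [e0]; exact hout h)
      subst e0'
      obtain ⟨p, p', hpp, hne⟩ := hcon p0 hout (by rw [hst]; exact hfin) (by rw [hst]; exact hnt)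
        ⟨p1, p2, ht⟩
      refine ⟨π p, π p', (htri _ _ _).mpr ⟨?_, hne, ?_, _, _, _, hpp, rfl, rfl, rfl⟩⟩
      · intro hh; exact s5_tri_irr hpp (hsing _ _ hout hh)
      · intro hh; exact s5_tri_irr3 hpp (hsing _ _ hout hh)
    have hF : ∀ l : L.R.V, (∀ h : G, L.ρ l ≠ h • v) →
        π '' (L.ρ ⁻¹' (orbit G (L.ρ l))) = orbit G (π l) := by
      intro l hl
      ext y
      constructor
      · rintro ⟨p, ⟨h, hh⟩, rfl⟩
        have hh' : h • L.ρ l = L.ρ p := hh
        have : p = h • l := by
          apply L.inj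
          · rw [L.ρ_smul, hh']
          · intro k hk
            rw [← hh'] at hk
            apply hl (h⁻¹ * k)
            rw [mul_smul, ← hk, inv_smul_smul]
        rw [this, hπs]
        exact ⟨h, rfl⟩
      · rintro ⟨h, rfl⟩
        refine ⟨h • l, ?_, hπs h l⟩
        change L.ρ (h • l) ∈ orbit G (L.ρ l)
        rw [L.ρ_smul]
        exact ⟨h, rfl⟩
    have hle : A.ncard ≤ (B \ {orbit G (π q)}).ncard := by
      refine Set.ncard_le_ncard_of_injOn (fun O => π '' (L.ρ ⁻¹' O)) ?_ ?_
        (hBfin.subset Set.sdiff_subset)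
      · rintro O ⟨x, hx, rfl⟩
        obtain ⟨l, rfl⟩ := L.surj x
        obtain ⟨hout, htr, hst⟩ := hlift _ hx l rfl
        simp only
        rw [hF l hout]
        refine ⟨⟨π l, ⟨htr, by rw [hst]; exact hx.2.1, by rw [hst]; exact hx.2.2⟩, rfl⟩, ?_⟩
        intro h
        have h7 : orbit G (π l) = orbit G (π q) := h
        have h8 : π l ∈ orbit G (π q) := by rw [← h7]; exact mem_orbit_self _
        obtain ⟨k, hk⟩ := h8
        have hk' : k • π q = π l := hk
        rw [← hπs] at hk'
        have h9 := hsing l (k • q) hout hk'.symm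
        apply hout k
        rw [h9, L.ρ_smul, hq]
      · rintro O ⟨x, hx, rfl⟩ O' ⟨x', hx', rfl⟩ heq
        obtain ⟨l, rfl⟩ := L.surj x
        obtain ⟨l', rfl⟩ := L.surj x'
        obtain ⟨hout, -, -⟩ := hlift _ hx l rfl
        obtain ⟨hout', -, -⟩ := hlift _ hx' l' rfl
        simp only at heq ⊢
        rw [hF l hout, hF l' hout'] at heq
        have h8 : π l ∈ orbit G (π l') := by rw [← heq]; exact mem_orbit_self _
        obtain ⟨k, hk⟩ := h8
        have hk' : k • π l' = π l := hk
        rw [← hπs] at hk'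
        have h9 := hsing l (k • l') hout hk'.symm
        rw [h9, L.ρ_smul]
        exact orbit_smul k _
    have := Set.ncard_sdiff_singleton_add_one hstabQ hBfin
    omega
  omega

/-- elements of `<s> q` for an involution `s` -/
theorem s5c_pow {α : Type} [MulAction G α] {s : G} (hs : s * s = 1) (q : α) (i : ℤ) :
    s ^ i • q = q ∨ s ^ i • q = s • q := by
  rcases Int.even_or_odd' i with ⟨n, h | h⟩
  · left
    rw [h, zpow_mul, zpow_two, hs, one_zpow, one_smul]
  · right
    rw [h, zpow_add, zpow_mul, zpow_two, hs, one_zpow, one_mul, zpow_one]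

theorem st_S5C (hCON : ST_CON) : ST_S5C := by
  intro G _ D K v L hRed hNM q s hq hadj hsv hss
  classical
  have hinj : ∀ a b : G, a • q = b • q → a = b := fun a b h => L.s5_inj hq h
  have hs1 : s ≠ 1 := by
    rintro rfl; exact hsv (one_smul _ _)
  have hsinv : s⁻¹ = s := inv_eq_of_mul_eq_one_left hss
  have hρq : ∀ k : G, L.ρ (k • q) = k • v := fun k => by rw [L.ρ_smul, hq]
  obtain ⟨K', π, hsurj, hπs, hπ, hπQ, htri, hstab, hrr⟩ := s5_con hCON D L hq hadj
  have hπq : π q = π (s • q) := by
    have := hπQ 0 1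
    simpa using this
  set S1 : Set (Set L.R.V) := {t | ∃ x y z, L.R.tri x y z ∧ π x = π y ∧ t = {x, y, z}} with hS1
  have hS1fin : FinOrb G S1 := by
    refine s5_finorb_mono L.R.finT ?_
    rintro s ⟨x, y, z, h, -, rfl⟩
    exact ⟨x, y, z, h, rfl⟩
  have h3 := L.delta1
  have h3' := L.delta2
  have h4 : rr K ≤ rr K' := hNM.1 K'
  have ho : oc G S1 ≤ oc G {t : Set L.R.V | ∃ p q r, L.R.tri p q r ∧ L.ρ p = L.ρ q ∧
      t = {p, q, r}} := by omega
  by_cases ho1 : oc G S1 ≤ 1
  · -- at most one orbit
    by_cases hne : ∃ w, L.R.tri q (s • q) w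
    · obtain ⟨w, hw⟩ := hne
      have hsub : {r | L.R.tri q (s • q) r} ⊆ {w, s • w} := by
        intro r hr
        have hr' : L.R.tri q (s • q) r := hr
        have hex : ∃ k : G, ({q, s • q, r} : Set L.R.V) = k • ({q, s • q, w} : Set L.R.V) := by
          by_contra hno
          push Not at hno
          have := s5_oc_ge2 hS1fin (s := ({q, s • q, w} : Set L.R.V)) (s' := {q, s • q, r})
            ⟨_, _, _, hw, hπq, rfl⟩ ⟨_, _, _, hr', hπq, rfl⟩ hno
          omega
        obtain ⟨k, hk⟩ := hex
        rw [s5_smul_triple] at hk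
        have m1 : q ∈ ({k • q, k • s • q, k • w} : Set L.R.V) := by rw [← hk]; simp
        have m2 : s • q ∈ ({k • q, k • s • q, k • w} : Set L.R.V) := by rw [← hk]; simp
        have m3 : r ∈ ({k • q, k • s • q, k • w} : Set L.R.V) := by rw [← hk]; simp
        have r1 : r ≠ q := (s5_tri_irr3 hr').symm
        have r2 : r ≠ s • q := (s5_tri_irr2 hr').symm
        have w1 : w ≠ q := (s5_tri_irr3 hw).symm
        have w2 : w ≠ s • q := (s5_tri_irr2 hw).symm
        simp only [Set.mem_insert_iff, Set.mem_singleton_iff] at m1 m2 m3 ⊢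
        rcases m1 with h | h | h
        · have e : k = 1 := hinj _ _ (by rw [← h, one_smul])
          subst e
          rw [one_smul, one_smul, one_smul] at m3
          rcases m3 with h5 | h5 | h5
          · exact absurd h5 r1
          · exact absurd h5 r2
          · exact Or.inl h5
        · rw [← mul_smul] at h
          have e : k = s⁻¹ := eq_inv_of_mul_eq_one_left (hinj _ _ (by rw [← h, one_smul]))
          rw [hsinv] at e
          subst e
          rcases m3 with h5 | h5 | h5
          · exact absurd h5 r2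
          · rw [← mul_smul, hss, one_smul] at h5; exact absurd h5 r1
          · exact Or.inr h5
        · exfalso
          rcases m2 with h5 | h5 | h5
          · have e := hinj _ _ h5
            subst e
            apply w2
            rw [h, ← mul_smul, hss, one_smul]
          · rw [← mul_smul] at h5
            have e := hinj _ _ h5
            have e2 : k = 1 := by
              have : k * s = 1 * s := by rw [one_mul]; exact e.symm
              exact mul_right_cancel this
            rw [e2, one_smul] at h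
            exact w1 h.symm
          · rw [← h] at h5
            exact hs1 (hinj _ _ (by rw [h5, one_smul]))
      have hfin : ({w, s • w} : Set L.R.V).Finite := Set.toFinite _
      refine ⟨hfin.subset hsub, (Set.ncard_le_ncard hsub hfin).trans ?_⟩
      exact Set.ncard_insert_le _ _ |>.trans (by rw [Set.ncard_singleton])
    · push Not at hne
      have : {r | L.R.tri q (s • q) r} = ∅ := by
        ext r
        simp only [Set.mem_ofPred_eq, Set.mem_empty_iff_false, iff_false]
        exact hne r
      rw [this]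
      exact ⟨Set.finite_empty, by simp⟩
  · exfalso
    push Not at ho1
    have hoc2 : oc G {t : Set L.R.V | ∃ p q r, L.R.tri p q r ∧ L.ρ p = L.ρ q ∧ t = {p, q, r}} = 2 := by
      omega
    have h5 : rr K' = rr K := by omega
    have hnn : nn K' ≤ nn K := hNM.2 K' h5
    -- pairs in a class
    have hpair : ∀ (a b : L.R.V), a ≠ b → ∀ (k : G) (i j : ℤ), k • a = s ^ i • q →
        k • b = s ^ j • q → ∃ n : G, (a = n • q ∧ b = n • s • q) := by
      intro a b hab k i j ha hb
      have ha' : a = k⁻¹ • s ^ i • q := by rw [← ha, inv_smul_smul]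
      have hb' : b = k⁻¹ • s ^ j • q := by rw [← hb, inv_smul_smul]
      rcases s5c_pow hss q i with hi | hi <;> rcases s5c_pow hss q j with hj | hj
      · rw [hi] at ha'; rw [hj] at hb'; exact absurd (ha'.trans hb'.symm) hab
      · rw [hi] at ha'; rw [hj] at hb'; exact ⟨k⁻¹, ha', hb'⟩
      · rw [hi] at ha'; rw [hj] at hb'
        refine ⟨k⁻¹ * s, ?_, ?_⟩
        · rw [ha', mul_smul]
        · rw [hb', ← mul_smul, mul_assoc, hss, mul_one]
      · rw [hi] at ha'; rw [hj] at hb'; exact absurd (ha'.trans hb'.symm) hab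
    have hvsv : v ≠ s • v := fun h => hsv h.symm
    -- the class Q lies in a triangle
    have hQ : ∃ y z, K'.tri (π q) y z := by
      by_contra hcon
      push Not at hcon
      -- D-triangles with two equal images contain a translate of the cell
      have hD : ∀ a b c : L.R.V, L.R.tri a b c → L.ρ a = L.ρ b →
          ∃ (n : G) (r : L.R.V), L.R.tri q (s • q) r ∧ (L.ρ r = v ∨ L.ρ r = s • v) ∧
            ({a, b, c} : Set L.R.V) = n • ({q, s • q, r} : Set L.R.V) := by
        intro a b c ht hab
        have hane : a ≠ b := s5_tri_irr ht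
        have haorb : ∃ h : G, L.ρ a = h • v := by
          by_contra hno
          push Not at hno
          exact hane (L.inj a b hab hno)
        obtain ⟨h, hh⟩ := haorb
        obtain ⟨n0, hn0⟩ := L.s5_orb hq hh
        have hnd : ¬ (π a ≠ π b ∧ π b ≠ π c ∧ π a ≠ π c) := by
          intro hd
          have h7 : K'.tri (π a) (π b) (π c) :=
            (htri _ _ _).mpr ⟨hd.1, hd.2.1, hd.2.2, _, _, _, ht, rfl, rfl, rfl⟩
          have h8 := K'.smul_tri n0⁻¹ _ _ _ h7
          rw [hn0, hπs, inv_smul_smul] at h8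
          exact hcon _ _ h8
        -- a triangle whose first two vertices form a cell translate
        have hgen : ∀ x y z : L.R.V, L.R.tri x y z → π x = π y →
            (L.ρ x = L.ρ y ∨ L.ρ y = L.ρ z ∨ L.ρ x = L.ρ z) →
            ∃ (n : G) (r : L.R.V), L.R.tri q (s • q) r ∧ (L.ρ r = v ∨ L.ρ r = s • v) ∧
              ({x, y, z} : Set L.R.V) = n • ({q, s • q, r} : Set L.R.V) := by
          intro x y z hxyz hxy hρ
          rcases hπ _ _ hxy with h9 | ⟨k, i, j, h9, h10⟩
          · exact absurd h9 (s5_tri_irr hxyz)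
          · obtain ⟨n, hx, hy⟩ := hpair x y (s5_tri_irr hxyz) k i j h9 h10
            refine ⟨n, n⁻¹ • z, ?_, ?_, ?_⟩
            · have := L.R.smul_tri n⁻¹ _ _ _ hxyz
              rwa [hx, hy, inv_smul_smul, inv_smul_smul] at this
            · rw [L.ρ_smul, inv_smul_eq_iff, inv_smul_eq_iff]
              have e1 : L.ρ x = n • v := by rw [hx, hρq]
              have e2 : L.ρ y = n • s • v := by rw [hy, L.ρ_smul, hρq]
              rcases hρ with h | h | h
              · rw [e1, e2] at h
                exact absurd (smul_left_cancel n h) hvsv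
              · right; rw [← h, e2]
              · left; rw [← h, e1]
            · rw [s5_smul_triple, ← hx, ← hy, smul_inv_smul]
        by_cases c1 : π a = π b
        · exact hgen a b c ht c1 (Or.inl hab)
        by_cases c2 : π b = π c
        · obtain ⟨n, r, h1, h2, h3⟩ := hgen b c a (L.R.tri_rot _ _ _ ht) c2
            (Or.inr (Or.inr hab.symm))
          refine ⟨n, r, h1, h2, ?_⟩
          rw [← h3]
          ext y; simp only [Set.mem_insert_iff, Set.mem_singleton_iff]; tauto
        by_cases c3 : π a = π c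
        · obtain ⟨n, r, h1, h2, h3⟩ := hgen a c b (s5_tri_swap23 ht) c3
            (Or.inr (Or.inr hab))
          refine ⟨n, r, h1, h2, ?_⟩
          rw [← h3]
          ext y; simp only [Set.mem_insert_iff, Set.mem_singleton_iff]; tauto
        exact absurd ⟨c1, c2, c3⟩ hnd
      -- pick one D-triangle
      have hexD : ∃ r0, L.R.tri q (s • q) r0 ∧ (L.ρ r0 = v ∨ L.ρ r0 = s • v) := by
        by_contra hno
        have : {t : Set L.R.V | ∃ p q r, L.R.tri p q r ∧ L.ρ p = L.ρ q ∧ t = {p, q, r}} = ∅ := by
          rw [Set.eq_empty_iff_forall_notMem]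
          rintro t ⟨a, b, c, ht, hab, -⟩
          obtain ⟨n, r, h1, h2, -⟩ := hD a b c ht hab
          exact hno ⟨r, h1, h2⟩
        rw [this] at hoc2
        unfold oc at hoc2
        rw [Set.image_empty, Set.ncard_empty] at hoc2
        omega
      obtain ⟨r0, hr0, hr0'⟩ := hexD
      have h6 : oc G {t : Set L.R.V | ∃ p q r, L.R.tri p q r ∧ L.ρ p = L.ρ q ∧
          t = {p, q, r}} ≤ 1 := by
        refine s5_oc_le1 (s := ({q, s • q, r0} : Set L.R.V)) ?_
        rintro t ⟨a, b, c, ht, hab, rfl⟩
        obtain ⟨n, r, h1, h2, h3⟩ := hD a b c ht hab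
        rcases L.gamma q s hq hss hadj r0 r hr0 h1 hr0' h2 with h7 | h7
        · exact ⟨n, by rw [h3, h7]⟩
        · refine ⟨n * s, ?_⟩
          rw [h3, h7, mul_smul n s ({q, s • q, r0} : Set L.R.V)]
          congr 1
          rw [s5_smul_triple, ← mul_smul, hss, one_smul]
          ext y; simp only [Set.mem_insert_iff, Set.mem_singleton_iff]; tauto
      omega
    have hsfin : IsOfFinOrder s := isOfFinOrder_iff_pow_eq_one.mpr ⟨2, by norm_num, by
      rw [pow_two]; exact hss⟩
    obtain ⟨w, hout, hfin, hnt, ⟨p0, p0', ht0⟩, hall⟩ := s5c_lost hq s hπs hπ htri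
      (by rw [hstab]; exact finite_zpowers.mpr hsfin)
      (by rw [hstab]; intro h; rw [Subgroup.zpowers_eq_bot] at h; exact hs1 h) hQ hnn
    have hF3 : ∀ p p', L.R.tri w p p' → ∃ n : G, p = n • q ∧ p' = n • s • q := by
      intro p p' hpp
      rcases hπ _ _ (hall p p' hpp) with h9 | ⟨k, i, j, h9, h10⟩
      · exact absurd h9 (s5_tri_irr2 hpp)
      · exact hpair p p' (s5_tri_irr2 hpp) k i j h9 h10
    -- unique cells at `w`
    have hwu : ∀ p p' : L.R.V, L.R.adj w p → L.R.adj w p' → L.ρ p = L.ρ p' → p = p' := by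
      intro p p' hp hp' hpp
      have h1 := L.alpha w p hp (by
        intro h
        have := L.inj w p h hout
        rw [← this] at hp
        exact L.R.irrefl _ hp) (by
        intro r hr
        obtain ⟨n, h1, h2⟩ := hF3 p r hr
        have hne : n • v ≠ n • s • v := fun h => hvsv (smul_left_cancel n h)
        rw [h1, h2, hρq, L.ρ_smul, hρq]
        refine ⟨?_, fun h => hne h.symm⟩
        rw [← mul_smul]; exact fun h => hout _ h.symm) w p' hp' rfl hpp.symm
      exact h1.2.symm
    obtain ⟨n, hn1, hn2⟩ := hF3 _ _ ht0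
    have hK : ∀ p q r : L.R.V, L.R.tri p q r → L.ρ p ≠ L.ρ q → L.ρ q ≠ L.ρ r → L.ρ p ≠ L.ρ r →
        K.tri (L.ρ p) (L.ρ q) (L.ρ r) := by
      intro p q r h h1 h2 h3
      rcases L.trik p q r h with h4 | ⟨h4, -⟩ | ⟨h4, -⟩ | ⟨h4, -⟩
      · exact h4
      · exact absurd h4 h1
      · exact absurd h4 h2
      · exact absurd h4 h3
    have hρ0 : L.ρ p0 = n • v := by rw [hn1, hρq]
    have hρ0' : L.ρ p0' = (n * s) • v := by rw [hn2, L.ρ_smul, hρq, mul_smul]
    have hT : K.tri (L.ρ w) (L.ρ p0) (L.ρ p0') := by
      apply hK _ _ _ ht0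
      · rw [hρ0]; exact hout n
      · rw [hρ0, hρ0', mul_smul]; exact fun h => hvsv (smul_left_cancel n h)
      · rw [hρ0']; exact hout _
    have hstw : stabilizer G (L.ρ w) = stabilizer G w := by
      ext h
      rw [mem_stabilizer_iff, mem_stabilizer_iff]
      exact (L.s5_irr_orb hout).symm
    have hR2 := (hRed.R2 (L.ρ w) (Or.inl (by rw [hstw]; exact hfin))).1
    have hN : ∀ z, K.adj (L.ρ w) z → z = L.ρ p0 ∨ z = L.ρ p0' := by
      intro z hz
      have hr := hR2 (L.ρ p0) z (K.tri_adj _ _ _ hT) hz
      clear hz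
      induction hr with
      | refl => exact Or.inl rfl
      | @tail y y' _ hst ih =>
        -- lift
        obtain ⟨a0, a1, a2, e0, e1, e2, hR, -⟩ := L.lift _ _ _ hst
        have e0' : a0 = w := (L.inj w a0 e0.symm hout).symm
        subst e0'
        obtain ⟨n', f1, f2⟩ := hF3 _ _ hR
        rcases ih with h | h
        · have e3 : a1 = p0 := hwu _ _ (L.R.tri_adj _ _ _ hR) (L.R.tri_adj _ _ _ ht0)
            (by rw [e1, h])
          right
          rw [e3, hn1] at f1
          have e4 := hinj _ _ f1
          rw [← e2, f2, hn2, e4]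
        · have e3 : a1 = p0' := hwu _ _ (L.R.tri_adj _ _ _ hR) (s5_tri_adj3 ht0)
            (by rw [e1, h])
          left
          rw [e3, hn2, ← mul_smul] at f1
          have e4 := hinj _ _ f1
          rw [← e2, f2, ← e4, ← mul_smul, mul_assoc, hss, mul_one, hn1]
    obtain ⟨K2, hK2⟩ := s5c_removal K (L.ρ w) (L.ρ p0) (L.ρ p0') hT hN
      (by
        intro h hh
        rw [hρ0] at hh
        apply hout (h⁻¹ * n)
        rw [mul_smul, hh, inv_smul_smul])
      (by
        intro h hh
        rw [hρ0'] at hh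
        apply hout (h⁻¹ * (n * s))
        rw [mul_smul, hh, inv_smul_smul])
    have := hNM.1 K2
    omega

end Pool.Agent.Helper93.HZ
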